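import Pool.Agent.H10R2.PL.AsmD
import Pool.Agent.H10R2.PL.SWA

/-!
The set of configurations with an eigenvector that does not vanish at a given site is measurable
(a countable union of closed sets).
-/

set_option autoImplicit false

namespace Pool.Agent.TH980.PL

open MeasureTheory ProbabilityTheory Matrix Set Filter H10PL Topology

variable {d : ℕ} {T0 : (Fin d → ℤ) → (Fin d → ℤ) → ℝ} {κ : (Fin d → ℤ) → ℝ} {ρ0 b : ℝ}

/-- a bound of the squares of the hopping amplitudes -/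
def Gd (T0 : (Fin d → ℤ) → (Fin d → ℤ) → ℝ) (κ : (Fin d → ℤ) → ℝ) (y w : Fin d → ℤ) : ℝ :=
  2 * T0 y w ^ 2 + 2 * κ (y - w) ^ 2

theorem Gd_nonneg (y w : Fin d → ℤ) : 0 ≤ Gd T0 κ y w := by
  unfold Gd; positivity

theorem Gd_summable (h : Adm T0 κ ρ0 b) (y : Fin d → ℤ) : Summable (Gd T0 κ y) := by
  refine summable_of_sum_le (c := 2 * b ^ 2 + 2 * ∑' z, κ z ^ 2) (fun w => Gd_nonneg y w)
    (fun F => ?_)
  have h1 := T0_sq_sum h y F
  have h2 := κ_sq_sum h y F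
  calc ∑ w ∈ F, Gd T0 κ y w = 2 * ∑ w ∈ F, T0 y w ^ 2 + 2 * ∑ w ∈ F, κ (y - w) ^ 2 := by
        rw [Finset.mul_sum, Finset.mul_sum, ← Finset.sum_add_distrib]
        rfl
    _ ≤ _ := by linarith

/-- tail of the bound -/
noncomputable def tau (T0 : (Fin d → ℤ) → (Fin d → ℤ) → ℝ) (κ : (Fin d → ℤ) → ℝ) (y : Fin d → ℤ)
    (F : Finset (Fin d → ℤ)) : ℝ :=
  (∑' w, Gd T0 κ y w) - ∑ w ∈ F, Gd T0 κ y w

theorem tau_nonneg (h : Adm T0 κ ρ0 b) (y : Fin d → ℤ) (F : Finset (Fin d → ℤ)) :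
    0 ≤ tau T0 κ y F := by
  unfold tau
  have := (Gd_summable h y).sum_le_tsum F (fun w _ => Gd_nonneg y w)
  linarith

theorem tau_tendsto (h : Adm T0 κ ρ0 b) (y : Fin d → ℤ) :
    Tendsto (tau T0 κ y) atTop (𝓝 0) := by
  have h1 : Tendsto (fun F : Finset (Fin d → ℤ) => ∑ w ∈ F, Gd T0 κ y w) atTop
      (𝓝 (∑' w, Gd T0 κ y w)) := (Gd_summable h y).hasSum
  have h2 := (tendsto_const_nhds (x := ∑' w, Gd T0 κ y w)).sub h1
  rw [sub_self] at h2
  exact h2

/-- the difference between the hopping term and its partial sums -/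
theorem part_bound (h : Adm T0 κ ρ0 b) (s : Sym2 (Fin d → ℤ) → Bool) (ψ : (Fin d → ℤ) → ℝ)
    (hs : Summable fun y => ψ y ^ 2) {n : ℝ} (hn : ∑' y, ψ y ^ 2 ≤ n) (y : Fin d → ℤ)
    (F : Finset (Fin d → ℤ)) :
    |(∑' w, Kf T0 κ s y w * ψ w) - ∑ w ∈ F, Kf T0 κ s y w * ψ w| ≤
      Real.sqrt (tau T0 κ y F * n) := by
  classical
  set f : (Fin d → ℤ) → ℝ := fun w => if w ∈ F then 0 else Kf T0 κ s y w with hf
  have hKs := Kf_sq_summable h s y
  have hfs : Summable fun w => f w ^ 2 := by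
    refine Summable.of_nonneg_of_le (fun w => sq_nonneg _) (fun w => ?_) hKs
    simp only [hf]
    split_ifs
    · simpa using sq_nonneg (Kf T0 κ s y w)
    · exact le_rfl
  have hprod := (cs_tsum hKs hs).1
  obtain ⟨h1, h2⟩ := cs_tsum hfs hs
  have e1 : (∑' w, Kf T0 κ s y w * ψ w) - ∑ w ∈ F, Kf T0 κ s y w * ψ w = ∑' w, f w * ψ w := by
    have hsub : Summable fun w => if w ∈ F then Kf T0 κ s y w * ψ w else 0 :=
      summable_of_ne_finset_zero (s := F) (fun w hw => by simp [hw])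
    have e2 : ∑ w ∈ F, Kf T0 κ s y w * ψ w = ∑' w, if w ∈ F then Kf T0 κ s y w * ψ w else 0 := by
      rw [tsum_eq_sum (s := F) (fun w hw => by simp [hw])]
      exact Finset.sum_congr rfl fun w hw => by simp [hw]
    rw [e2, ← hprod.tsum_sub hsub]
    refine tsum_congr fun w => ?_
    simp only [hf]
    split_ifs <;> ring
  have h3 : ∑' w, f w ^ 2 ≤ tau T0 κ y F := by
    have hg : Summable fun w => if w ∈ F then 0 else Gd T0 κ y w := by
      refine Summable.of_nonneg_of_le (fun w => ?_) (fun w => ?_) (Gd_summable h y)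
      · split_ifs
        · exact le_rfl
        · exact Gd_nonneg y w
      · split_ifs
        · exact Gd_nonneg y w
        · exact le_rfl
    have e3 : tau T0 κ y F = ∑' w, if w ∈ F then 0 else Gd T0 κ y w := by
      unfold tau
      have hsub : Summable fun w => if w ∈ F then Gd T0 κ y w else 0 :=
        summable_of_ne_finset_zero (s := F) (fun w hw => by simp [hw])
      have e2 : ∑ w ∈ F, Gd T0 κ y w = ∑' w, if w ∈ F then Gd T0 κ y w else 0 := by
        rw [tsum_eq_sum (s := F) (fun w hw => by simp [hw])]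
        exact Finset.sum_congr rfl fun w hw => by simp [hw]
      rw [e2, ← (Gd_summable h y).tsum_sub hsub]
      refine tsum_congr fun w => ?_
      split_ifs <;> ring
    rw [e3]
    refine hfs.tsum_le_tsum (fun w => ?_) hg
    simp only [hf]
    split_ifs
    · simp
    · exact Kf_sq_le s y w
  rw [e1]
  apply Real.abs_le_sqrt
  refine le_trans h2 ?_
  exact mul_le_mul h3 hn (tsum_nonneg fun y => sq_nonneg _) (tau_nonneg h y F)

/-- configurations with a normalised eigenvector -/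
def Bad (T0 : (Fin d → ℤ) → (Fin d → ℤ) → ℝ) (κ : (Fin d → ℤ) → ℝ) (x : Fin d → ℤ) (n : ℕ) :
    Set (((Fin d → ℤ) → ℝ) × (Sym2 (Fin d → ℤ) → Bool)) :=
  {q | ∃ E : ℝ, ∃ ψ : (Fin d → ℤ) → ℝ, -(n : ℝ) ≤ E ∧ E ≤ n ∧ ψ x = 1 ∧
    ∑' y, ψ y ^ 2 ≤ n ∧ IsEig T0 κ q.2 q.1 E ψ}

theorem bad_closed (h : Adm T0 κ ρ0 b) (x : Fin d → ℤ) (n : ℕ) : IsClosed (Bad T0 κ x n) := by
  classical
  set Z := (Icc (-(n : ℝ)) n : Set ℝ) × ((Fin d → ℤ) → (Icc (-Real.sqrt n) (Real.sqrt n) : Set ℝ))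
    with hZ
  let C : Set ((((Fin d → ℤ) → ℝ) × (Sym2 (Fin d → ℤ) → Bool)) × Z) :=
    {p | (p.2.2 x : ℝ) = 1} ∩ ((⋂ F : Finset (Fin d → ℤ), {p | ∑ y ∈ F, (p.2.2 y : ℝ) ^ 2 ≤ n}) ∩
      ⋂ y : Fin d → ℤ, ⋂ F : Finset (Fin d → ℤ), {p |
        |(∑ w ∈ F, Kf T0 κ p.1.2 y w * (p.2.2 w : ℝ)) + p.1.1 y * (p.2.2 y : ℝ) -
          (p.2.1 : ℝ) * (p.2.2 y : ℝ)| ≤ Real.sqrt (tau T0 κ y F * n)})
  have hcoord : ∀ y, Continuous fun p : (((Fin d → ℤ) → ℝ) × (Sym2 (Fin d → ℤ) → Bool)) × Z =>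
      ((p.2.2 y : ℝ)) := fun y =>
    continuous_subtype_val.comp ((continuous_apply y).comp (continuous_snd.comp continuous_snd))
  have hE : Continuous fun p : (((Fin d → ℤ) → ℝ) × (Sym2 (Fin d → ℤ) → Bool)) × Z =>
      ((p.2.1 : ℝ)) :=
    continuous_subtype_val.comp (continuous_fst.comp continuous_snd)
  have hV : ∀ y, Continuous fun p : (((Fin d → ℤ) → ℝ) × (Sym2 (Fin d → ℤ) → Bool)) × Z =>
      p.1.1 y := fun y => (continuous_apply y).comp (continuous_fst.comp continuous_fst)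
  have hK : ∀ y w, Continuous fun p : (((Fin d → ℤ) → ℝ) × (Sym2 (Fin d → ℤ) → Bool)) × Z =>
      Kf T0 κ p.1.2 y w := by
    intro y w
    unfold Kf
    refine continuous_const.add (Continuous.mul ?_ continuous_const)
    exact (continuous_of_discreteTopology (f := sg)).comp
      ((continuous_apply _).comp (continuous_snd.comp continuous_fst))
  have hC : IsClosed C := by
    refine IsClosed.inter (isClosed_eq (hcoord x) continuous_const) (IsClosed.inter ?_ ?_)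
    · exact isClosed_iInter fun F => isClosed_le
        (continuous_finsetSum _ fun y _ => (hcoord y).pow 2) continuous_const
    · refine isClosed_iInter fun y => isClosed_iInter fun F => isClosed_le ?_ continuous_const
      refine Continuous.abs ?_
      refine (Continuous.add ?_ ((hV y).mul (hcoord y))).sub (hE.mul (hcoord y))
      exact continuous_finsetSum _ fun w _ => (hK y w).mul (hcoord w)
  have himg : Bad T0 κ x n = Prod.fst '' C := by
    ext q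
    constructor
    · rintro ⟨E, ψ, hE1, hE2, hx, hn, hs, heq⟩
      have hb : ∀ y, ψ y ∈ Icc (-Real.sqrt (n : ℝ)) (Real.sqrt n) := by
        intro y
        have h1 : ψ y ^ 2 ≤ n := le_trans (hs.le_tsum y fun z _ => sq_nonneg _) hn
        have h2 := Real.abs_le_sqrt h1
        exact abs_le.1 h2
      refine ⟨(q, (⟨E, hE1, hE2⟩, fun y => ⟨ψ y, hb y⟩)), ⟨hx, ?_, ?_⟩, rfl⟩
      · refine mem_iInter.2 fun F => ?_
        exact le_trans (hs.sum_le_tsum F fun y _ => sq_nonneg _) hn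
      · refine mem_iInter.2 fun y => mem_iInter.2 fun F => ?_
        have h1 := part_bound h q.2 ψ hs hn y F
        show |(∑ w ∈ F, Kf T0 κ q.2 y w * ψ w) + q.1 y * ψ y - E * ψ y| ≤ _
        have h2 := heq y
        have e : (∑ w ∈ F, Kf T0 κ q.2 y w * ψ w) + q.1 y * ψ y - E * ψ y =
            -((∑' w, Kf T0 κ q.2 y w * ψ w) - ∑ w ∈ F, Kf T0 κ q.2 y w * ψ w) := by
          linarith
        rw [e, abs_neg]
        exact h1
    · rintro ⟨⟨q', E, ψ⟩, ⟨hx, h1, h2⟩, rfl⟩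
      have hsum : ∀ F : Finset (Fin d → ℤ), ∑ y ∈ F, (ψ y : ℝ) ^ 2 ≤ n := fun F =>
        mem_iInter.1 h1 F
      have hs : Summable fun y => (ψ y : ℝ) ^ 2 :=
        summable_of_sum_le (fun y => sq_nonneg _) hsum
      have hn : ∑' y, (ψ y : ℝ) ^ 2 ≤ n := hs.tsum_le_of_sum_le hsum
      refine ⟨E, fun y => (ψ y : ℝ), E.2.1, E.2.2, hx, hn, hs, fun y => ?_⟩
      have hKs := Kf_sq_summable h q'.2 y
      have hprod := (cs_tsum hKs hs).1
      have t1 : Tendsto (fun F : Finset (Fin d → ℤ) =>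
          |(∑ w ∈ F, Kf T0 κ q'.2 y w * (ψ w : ℝ)) + q'.1 y * (ψ y : ℝ) - (E : ℝ) * (ψ y : ℝ)|)
          atTop (𝓝 |(∑' w, Kf T0 κ q'.2 y w * (ψ w : ℝ)) + q'.1 y * (ψ y : ℝ) -
            (E : ℝ) * (ψ y : ℝ)|) := by
        refine Tendsto.abs ?_
        have hh : Tendsto (fun F : Finset (Fin d → ℤ) => ∑ w ∈ F, Kf T0 κ q'.2 y w * (ψ w : ℝ))
          atTop (𝓝 (∑' w, Kf T0 κ q'.2 y w * (ψ w : ℝ))) := hprod.hasSum
        exact (hh.add tendsto_const_nhds).sub tendsto_const_nhds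
      have t2 : Tendsto (fun F : Finset (Fin d → ℤ) => Real.sqrt (tau T0 κ y F * n)) atTop (𝓝 0) := by
        have h3 := ((tau_tendsto h y).mul_const (n : ℝ)).sqrt
        simpa using h3
      have h4 := le_of_tendsto_of_tendsto' t1 t2 (fun F => mem_iInter.1 (mem_iInter.1 h2 y) F)
      have h5 := abs_nonpos_iff.1 h4
      show (∑' w, Kf T0 κ q'.2 y w * (ψ w : ℝ)) + q'.1 y * (ψ y : ℝ) = (E : ℝ) * (ψ y : ℝ)
      linarith
  rw [himg]
  exact isClosedMap_fst_of_compactSpace C hC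

/-- an eigenvector that does not vanish at `x` can be normalised -/
theorem bad_iff (h : Adm T0 κ ρ0 b) (x : Fin d → ℤ)
    (q : ((Fin d → ℤ) → ℝ) × (Sym2 (Fin d → ℤ) → Bool)) :
    (∃ E ψ, IsEig T0 κ q.2 q.1 E ψ ∧ ψ x ≠ 0) ↔ ∃ n, q ∈ Bad T0 κ x n := by
  constructor
  · rintro ⟨E, ψ, ⟨hs, heq⟩, hx⟩
    have hs' : Summable fun y => (ψ y / ψ x) ^ 2 := by
      have := hs.div_const (ψ x ^ 2)
      refine this.congr fun y => ?_
      rw [div_pow]
    obtain ⟨n, hn⟩ := exists_nat_ge (max |E| (∑' y, (ψ y / ψ x) ^ 2))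
    have h1 : |E| ≤ n := le_trans (le_max_left _ _) hn
    refine ⟨n, E, fun y => ψ y / ψ x, (abs_le.1 h1).1, (abs_le.1 h1).2, div_self hx,
      le_trans (le_max_right _ _) hn, hs', fun y => ?_⟩
    have h2 := heq y
    have e1 : ∑' w, Kf T0 κ q.2 y w * (ψ w / ψ x) = (∑' w, Kf T0 κ q.2 y w * ψ w) / ψ x := by
      rw [← tsum_div_const]
      exact tsum_congr fun w => by ring
    rw [e1]
    have : (∑' w, Kf T0 κ q.2 y w * ψ w) / ψ x + q.1 y * (ψ y / ψ x) =
        ((∑' w, Kf T0 κ q.2 y w * ψ w) + q.1 y * ψ y) / ψ x := by ring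
    rw [this, h2]
    ring
  · rintro ⟨n, E, ψ, -, -, hx, -, hE⟩
    exact ⟨E, ψ, hE, by rw [hx]; exact one_ne_zero⟩

end Pool.Agent.TH980.PL
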