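import Pool.Agent.TH980.PL.CutAE

/-!
Almost surely there are slowly varying cut-offs with small commutator: probabilistic part.
-/

set_option autoImplicit false

namespace Pool.Agent.TH980.PL

open Matrix Finset MeasureTheory H10PL Filter Topology

variable {d : ℕ} {T0 : (Fin d → ℤ) → (Fin d → ℤ) → ℝ} {κ : (Fin d → ℤ) → ℝ} {ρ0 b : ℝ}

theorem SmallC_mono {s : Sym2 (Fin d → ℤ) → Bool} {R ε : ℝ} {Λ Λ' : Finset (Fin d → ℤ)}
    (hΛ : Λ ⊆ Λ') (h : SmallC T0 κ s R ε Λ') : SmallC T0 κ s R ε Λ := by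
  classical
  intro u v
  have h1 := h (fun y => if y ∈ Λ then u y else 0) (fun y => if y ∈ Λ then v y else 0)
  have e1 : ∀ f : (Fin d → ℤ) → ℝ, ∑ y ∈ Λ', (if y ∈ Λ then f y else 0) ^ 2 = ∑ y ∈ Λ, f y ^ 2 := by
    intro f
    rw [← Finset.sum_subset hΛ]
    · refine Finset.sum_congr rfl fun y hy => ?_
      rw [if_pos hy]
    · intro y _ hy
      rw [if_neg hy]
      norm_num
  rw [e1, e1] at h1
  have e2 : ∑ y ∈ Λ', ∑ w ∈ Λ', (chi R y - chi R w) * Kf T0 κ s y w *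
      ((if y ∈ Λ then u y else 0) * (if w ∈ Λ then v w else 0)) =
      ∑ y ∈ Λ, ∑ w ∈ Λ, (chi R y - chi R w) * Kf T0 κ s y w * (u y * v w) := by
    rw [← Finset.sum_subset hΛ]
    · refine Finset.sum_congr rfl fun y hy => ?_
      rw [← Finset.sum_subset hΛ]
      · refine Finset.sum_congr rfl fun w hw => ?_
        rw [if_pos hy, if_pos hw]
      · intro w _ hw
        rw [if_neg hw]
        ring
    · intro y _ hy
      refine Finset.sum_eq_zero fun w _ => ?_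
      rw [if_neg hy]
      ring
  rw [e2] at h1
  exact h1

theorem trace_nonneg (Λ : Finset (Fin d → ℤ)) (R : ℝ) (h : Adm T0 κ ρ0 b)
    (s : Sym2 (Fin d → ℤ) → Bool) (p : ℕ) :
    0 ≤ (XX (JJ Λ) (AA κ R Λ) s ^ (2 * p + 2)).trace.re := by
  obtain ⟨U, l, hU1, hU2, hXq⟩ := herm_spec _ (XX_herm (JJ Λ) (AA κ R Λ) (AA_herm h R Λ) s)
  rw [hXq, Matrix.trace_mul_comm, ← Matrix.mul_assoc, hU1, Matrix.one_mul,
      Matrix.trace_diagonal, Complex.re_sum]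
  refine Finset.sum_nonneg fun i _ => ?_
  rw [← Complex.ofReal_pow, Complex.ofReal_re]
  have e : 2 * p + 2 = 2 * (p + 1) := by ring
  rw [e, pow_mul]
  positivity

theorem bad_one (h : Adm T0 κ ρ0 b) {R δ ε : ℝ} (hR : 0 < R) (hδ : 0 < δ) (hδ2 : δ ≤ 2)
    (hs : Summable fun z : Fin d → ℤ => ‖z‖ ^ δ * κ z ^ 2) (hε : 0 < ε)
    (hRb : |ρ0| / R * b ≤ ε) (Λ : Finset (Fin d → ℤ)) (p : ℕ) :
    (Ps d) {s | ¬ SmallC T0 κ s R ε Λ} ≤ ENNReal.ofReal
      (Cp p * ((∑' z : Fin d → ℤ, ‖z‖ ^ δ * κ z ^ 2) / R ^ δ) ^ p *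
        (2 * NB d R * ∑' z, κ z ^ 2) / ε ^ (2 * p + 2)) := by
  set f : (Sym2 (Fin d → ℤ) → Bool) → ℝ :=
    fun s => (XX (JJ Λ) (AA κ R Λ) s ^ (2 * p + 2)).trace.re with hf
  have hfc : Continuous f :=
    Complex.continuous_re.comp ((XX_cont (JJ Λ) (AA κ R Λ)).pow _).matrix_trace
  have h1 : {s | ¬ SmallC T0 κ s R ε Λ} ⊆ {s | ε ^ (2 * p + 2) ≤ f s} := by
    intro s hs'
    by_contra hcon
    apply hs'
    refine small_of hR hε h hRb Λ s p ?_
    simp only [Set.mem_ofPred_eq, not_le] at hcon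
    exact hcon.le
  refine (measure_mono h1).trans ?_
  have h2 : ε ^ (2 * p + 2) * (Ps d).real {s | ε ^ (2 * p + 2) ≤ f s} ≤ ∫ s, f s ∂(Ps d) :=
    mul_meas_ge_le_integral_of_nonneg (Eventually.of_forall fun s => trace_nonneg Λ R h s p)
      (int_cont f hfc) _
  have h3 := XX_moment h hR hδ hδ2 hs Λ p
  have hεp : 0 < ε ^ (2 * p + 2) := by positivity
  have h4 : (Ps d).real {s | ε ^ (2 * p + 2) ≤ f s} ≤
      Cp p * ((∑' z : Fin d → ℤ, ‖z‖ ^ δ * κ z ^ 2) / R ^ δ) ^ p *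
        (2 * NB d R * ∑' z, κ z ^ 2) / ε ^ (2 * p + 2) := by
    rw [le_div_iff₀ hεp, mul_comm]
    exact h2.trans h3
  rw [← ENNReal.ofReal_toReal (measure_ne_top (Ps d) {s | ε ^ (2 * p + 2) ≤ f s})]
  exact ENNReal.ofReal_le_ofReal h4

theorem bad_prob (h : Adm T0 κ ρ0 b) {R δ ε : ℝ} (hR : 0 < R) (hδ : 0 < δ) (hδ2 : δ ≤ 2)
    (hs : Summable fun z : Fin d → ℤ => ‖z‖ ^ δ * κ z ^ 2) (hε : 0 < ε)
    (hRb : |ρ0| / R * b ≤ ε) (p : ℕ) :
    (Ps d) {s | ¬ ∀ Λ, SmallC T0 κ s R ε Λ} ≤ ENNReal.ofReal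
      (Cp p * ((∑' z : Fin d → ℤ, ‖z‖ ^ δ * κ z ^ 2) / R ^ δ) ^ p *
        (2 * NB d R * ∑' z, κ z ^ 2) / ε ^ (2 * p + 2)) := by
  classical
  set B : ℕ → Finset (Fin d → ℤ) := fun m => (ball_finite (0 : Fin d → ℤ) m).toFinset with hB
  have hBm : Monotone B := by
    intro m m' hm y hy
    simp only [hB, Set.Finite.mem_toFinset, Set.mem_ofPred_eq] at hy ⊢
    exact hy.trans (by exact_mod_cast hm)
  have hBc : ∀ Λ : Finset (Fin d → ℤ), ∃ m, Λ ⊆ B m := by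
    intro Λ
    obtain ⟨m, hm⟩ := exists_nat_ge (∑ y ∈ Λ, ‖y‖)
    refine ⟨m, fun y hy => ?_⟩
    simp only [hB, Set.Finite.mem_toFinset, Set.mem_ofPred_eq, sub_zero]
    exact (Finset.single_le_sum (f := fun y : Fin d → ℤ => ‖y‖) (fun z _ => norm_nonneg z) hy).trans
      hm
  have h1 : {s | ¬ ∀ Λ, SmallC T0 κ s R ε Λ} ⊆ ⋃ m, {s | ¬ SmallC T0 κ s R ε (B m)} := by
    intro s hs'
    simp only [Set.mem_ofPred_eq, not_forall] at hs'
    obtain ⟨Λ, hΛ⟩ := hs'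
    obtain ⟨m, hm⟩ := hBc Λ
    rw [Set.mem_iUnion]
    exact ⟨m, fun hh => hΛ (SmallC_mono hm hh)⟩
  refine (measure_mono h1).trans ?_
  have hmono : Monotone fun m => {s | ¬ SmallC T0 κ s R ε (B m)} := by
    intro m m' hm s hs' hh
    exact hs' (SmallC_mono (hBm hm) hh)
  rw [hmono.measure_iUnion]
  exact iSup_le fun m => bad_one h hR hδ hδ2 hs hε hRb (B m) p

theorem NB_le (d N : ℕ) : NB d ((N : ℝ) + 1) ≤ (5 * ((N : ℝ) + 1)) ^ d := by
  classical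
  unfold NB
  have h1 : (ball_finite (0 : Fin d → ℤ) (2 * ((N : ℝ) + 1))).toFinset ⊆
      Fintype.piFinset fun _ : Fin d => Finset.Icc (-(2 * (N + 1) : ℤ)) (2 * (N + 1) : ℤ) := by
    intro y hy
    rw [Set.Finite.mem_toFinset, Set.mem_ofPred_eq, sub_zero] at hy
    rw [Fintype.mem_piFinset]
    intro i
    have h2 := (norm_le_pi_norm y i).trans hy
    rw [Int.norm_eq_abs] at h2
    rw [Finset.mem_Icc, ← abs_le]
    have : ((|y i| : ℤ) : ℝ) ≤ ((2 * (N + 1) : ℤ) : ℝ) := by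
      push_cast
      exact h2
    exact_mod_cast this
  have h2 := Finset.card_le_card h1
  rw [Fintype.card_piFinset_const, Int.card_Icc] at h2
  have h3 : ((2 * (N + 1) : ℤ) + 1 - -(2 * (N + 1) : ℤ)).toNat = 4 * N + 5 := by
    omega
  rw [h3] at h2
  have h4 : ((ball_finite (0 : Fin d → ℤ) (2 * ((N : ℝ) + 1))).toFinset.card : ℝ) ≤
      ((4 * N + 5 : ℕ) : ℝ) ^ d := by
    exact_mod_cast h2
  refine h4.trans (pow_le_pow_left₀ (by positivity) ?_ d)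
  push_cast
  linarith [(Nat.cast_nonneg N : (0 : ℝ) ≤ N)]

/-- **Almost sure essential self-adjointness** (in the form of cut-offs). -/
theorem cut_ae (h : Adm T0 κ ρ0 b) {δ : ℝ} (hδ : 0 < δ) (hδ2 : δ ≤ 2)
    (hs : Summable fun z : Fin d → ℤ => ‖z‖ ^ δ * κ z ^ 2) :
    ∀ᵐ s ∂(Ps d), CutOK T0 κ s := by
  classical
  set Sd := ∑' z : Fin d → ℤ, ‖z‖ ^ δ * κ z ^ 2 with hSd
  have hSd0 : 0 ≤ Sd := tsum_nonneg fun z => by positivity
  set K2 := ∑' z, κ z ^ 2 with hK2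
  have hK0 : 0 ≤ K2 := tsum_nonneg fun z => sq_nonneg _
  have hb : 0 ≤ b := b_nonneg h
  obtain ⟨p, hp⟩ := exists_nat_ge (((d : ℝ) + 1) / δ)
  have hp' : (d : ℝ) + 1 ≤ δ * p := by
    rw [div_le_iff₀ hδ] at hp
    linarith
  have key : ∀ m N0 : ℕ, ∀ᵐ s ∂(Ps d), ∃ N ≥ N0, ∀ Λ, SmallC T0 κ s ((N : ℝ) + 1)
      (1 / ((m : ℝ) + 1)) Λ := by
    intro m N0
    set ε : ℝ := 1 / ((m : ℝ) + 1) with hε
    have hε0 : 0 < ε := by positivity
    rw [ae_iff]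
    refine le_antisymm ?_ zero_le
    set C : ℝ := Cp p * Sd ^ p * (2 * 5 ^ d * K2) / ε ^ (2 * p + 2) with hC
    have hC0 : 0 ≤ C := by
      have := Cp_nonneg p
      positivity
    have hlim : Tendsto (fun N : ℕ => ENNReal.ofReal (C / ((N : ℝ) + 1))) atTop (𝓝 0) := by
      have h1 : Tendsto (fun N : ℕ => C / ((N : ℝ) + 1)) atTop (𝓝 0) := by
        have := (tendsto_one_div_add_atTop_nhds_zero_nat (𝕜 := ℝ)).const_mul C
        rw [mul_zero] at this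
        refine this.congr fun N => ?_
        ring
      have := ENNReal.tendsto_ofReal h1
      rwa [ENNReal.ofReal_zero] at this
    obtain ⟨N1, hN1⟩ := exists_nat_ge (|ρ0| * b / ε)
    refine ge_of_tendsto hlim ?_
    filter_upwards [eventually_ge_atTop N0, eventually_ge_atTop N1] with N hN0 hN
    have hR : (0 : ℝ) < (N : ℝ) + 1 := by positivity
    have hRb : |ρ0| / ((N : ℝ) + 1) * b ≤ ε := by
      have h2 : (N1 : ℝ) ≤ N := by exact_mod_cast hN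
      have h3 : |ρ0| * b / ε ≤ (N : ℝ) + 1 := by linarith
      rw [div_le_iff₀ hε0] at h3
      rw [div_mul_eq_mul_div, div_le_iff₀ hR]
      linarith
    have h1 : {s | ¬ ∃ N ≥ N0, ∀ Λ, SmallC T0 κ s ((N : ℝ) + 1) ε Λ} ⊆
        {s | ¬ ∀ Λ, SmallC T0 κ s ((N : ℝ) + 1) ε Λ} := by
      intro s hs' hh
      exact hs' ⟨N, hN0, hh⟩
    refine (measure_mono h1).trans ((bad_prob h hR hδ hδ2 hs hε0 hRb p).trans ?_)
    refine ENNReal.ofReal_le_ofReal ?_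
    rw [← hSd, ← hK2]
    -- arithmetic
    set r : ℝ := (N : ℝ) + 1 with hr
    have hr1 : 1 ≤ r := by
      have : (0 : ℝ) ≤ N := Nat.cast_nonneg N
      linarith
    have e1 : (Sd / r ^ δ) ^ p = Sd ^ p / r ^ (δ * p) := by
      rw [div_pow, ← Real.rpow_natCast (r ^ δ) p, ← Real.rpow_mul hR.le]
    have e2 : r ^ (d + 1) ≤ r ^ (δ * p) := by
      rw [← Real.rpow_natCast r (d + 1)]
      exact Real.rpow_le_rpow_of_exponent_le hr1 (by push_cast; exact hp')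
    have e3 : Sd ^ p / r ^ (δ * p) ≤ Sd ^ p / r ^ (d + 1) :=
      div_le_div_of_nonneg_left (pow_nonneg hSd0 p) (by positivity) e2
    have e4 : 2 * NB d r * K2 ≤ 2 * (5 ^ d * r ^ d) * K2 := by
      have := NB_le d N
      rw [← hr, mul_pow] at this
      nlinarith
    have hCp := Cp_nonneg p
    calc Cp p * (Sd / r ^ δ) ^ p * (2 * NB d r * K2) / ε ^ (2 * p + 2)
        ≤ Cp p * (Sd ^ p / r ^ (d + 1)) * (2 * (5 ^ d * r ^ d) * K2) / ε ^ (2 * p + 2) := by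
          refine div_le_div_of_nonneg_right ?_ (by positivity)
          rw [e1]
          refine mul_le_mul (mul_le_mul_of_nonneg_left e3 hCp) e4 ?_ (by positivity)
          have : 0 ≤ NB d r := by unfold NB; positivity
          positivity
      _ = C / r := by
          rw [hC]
          have : r ≠ 0 := hR.ne'
          field_simp
          ring
  have hall : ∀ᵐ s ∂(Ps d), ∀ m N0 : ℕ, ∃ N ≥ N0, ∀ Λ, SmallC T0 κ s ((N : ℝ) + 1)
      (1 / ((m : ℝ) + 1)) Λ := by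
    rw [ae_all_iff]
    intro m
    rw [ae_all_iff]
    intro N0
    exact key m N0
  filter_upwards [hall] with s hs'
  intro ε hε F
  obtain ⟨m, hm⟩ := exists_nat_one_div_lt hε
  obtain ⟨N0, hN0⟩ := exists_nat_ge (∑ y ∈ F, ‖y‖)
  obtain ⟨N, hN, hsm⟩ := hs' m N0
  have hR : (0 : ℝ) < (N : ℝ) + 1 := by positivity
  refine ⟨Finsupp.ofSupportFinite (chi ((N : ℝ) + 1)) (chi_supp hR), ?_, ?_, ?_⟩
  · intro y
    rw [Finsupp.ofSupportFinite_coe]
    exact ⟨chi_nonneg _ _, chi_le_one _ _⟩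
  · intro y hy
    rw [Finsupp.ofSupportFinite_coe]
    refine chi_one hR ?_
    have h1 := Finset.single_le_sum (f := fun y : Fin d → ℤ => ‖y‖) (fun z _ => norm_nonneg z) hy
    have h2 : (N0 : ℝ) ≤ N := by exact_mod_cast hN
    have h3 : ‖y‖ ≤ ∑ z ∈ F, ‖z‖ := h1
    linarith
  · intro Λ u v
    rw [Finsupp.ofSupportFinite_coe]
    refine (hsm Λ u v).trans (mul_le_mul_of_nonneg_right hm.le ?_)
    positivity

end Pool.Agent.TH980.PL
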