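import Pool.Agent.TH980.PL.NoEig
import Pool.Agent.TH980.PL.CutP

/-!
No square summable complex solution of `H ψ = z ψ`, for real and nonreal `z`.
-/

set_option autoImplicit false

namespace Pool.Agent.TH980.PL

open Finset MeasureTheory H10PL Filter Topology

variable {d : ℕ} {T0 : (Fin d → ℤ) → (Fin d → ℤ) → ℝ} {κ : (Fin d → ℤ) → ℝ} {ρ0 b : ℝ}

theorem comm_bound (h : Adm T0 κ ρ0 b) (s : Sym2 (Fin d → ℤ) → Bool)
    (χ : (Fin d → ℤ) →₀ ℝ) (ε : ℝ) (hε : 0 ≤ ε)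
    (hχ3 : ∀ (Λ : Finset (Fin d → ℤ)) (u v : (Fin d → ℤ) → ℝ),
      |∑ y ∈ Λ, ∑ w ∈ Λ, (χ y - χ w) * Kf T0 κ s y w * (u y * v w)| ≤
        ε * (∑ y ∈ Λ, u y ^ 2 + ∑ y ∈ Λ, v y ^ 2))
    (f g : (Fin d → ℤ) → ℝ) (hf : Summable fun y => f y ^ 2) (hg : Summable fun y => g y ^ 2) :
    |∑ y ∈ χ.support, χ y * g y * ∑' w, Kf T0 κ s y w * f w -
      ∑ w ∈ χ.support, χ w * f w * ∑' y, Kf T0 κ s w y * g y| ≤
      ε * (∑' y, g y ^ 2 + ∑' y, f y ^ 2) := by
  classical
  set S := ∑ y ∈ χ.support, χ y * g y * ∑' w, Kf T0 κ s y w * f w -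
    ∑ w ∈ χ.support, χ w * f w * ∑' y, Kf T0 κ s w y * g y with hS
  have hlim : Tendsto (fun Λ : Finset (Fin d → ℤ) =>
      ∑ y ∈ Λ, ∑ w ∈ Λ, (χ y - χ w) * Kf T0 κ s y w * (g y * f w)) atTop (𝓝 S) := by
    have h1 : Tendsto (fun Λ : Finset (Fin d → ℤ) =>
        ∑ y ∈ χ.support, χ y * g y * ∑ w ∈ Λ, Kf T0 κ s y w * f w -
        ∑ w ∈ χ.support, χ w * f w * ∑ y ∈ Λ, Kf T0 κ s w y * g y) atTop (𝓝 S) := by
      apply Tendsto.sub
      · apply tendsto_finsetSum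
        intro y _
        exact ((cs_tsum (Kf_sq_summable h s y) hf).1.hasSum).const_mul _
      · apply tendsto_finsetSum
        intro y _
        exact ((cs_tsum (Kf_sq_summable h s y) hg).1.hasSum).const_mul _
    refine h1.congr' ?_
    filter_upwards [eventually_ge_atTop χ.support] with Λ hΛ
    have h2 : ∑ y ∈ Λ, ∑ w ∈ Λ, (χ y - χ w) * Kf T0 κ s y w * (g y * f w) =
        ∑ y ∈ Λ, χ y * g y * ∑ w ∈ Λ, Kf T0 κ s y w * f w -
        ∑ w ∈ Λ, χ w * f w * ∑ y ∈ Λ, Kf T0 κ s w y * g y := by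
      have h3 : ∑ w ∈ Λ, χ w * f w * ∑ y ∈ Λ, Kf T0 κ s w y * g y =
          ∑ y ∈ Λ, ∑ w ∈ Λ, χ w * Kf T0 κ s y w * (g y * f w) := by
        rw [Finset.sum_comm]
        refine Finset.sum_congr rfl fun w _ => ?_
        rw [Finset.mul_sum]
        refine Finset.sum_congr rfl fun y _ => ?_
        rw [Kf_symm h s w y]
        ring
      rw [h3, ← Finset.sum_sub_distrib]
      refine Finset.sum_congr rfl fun y _ => ?_
      rw [Finset.mul_sum, ← Finset.sum_sub_distrib]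
      refine Finset.sum_congr rfl fun w _ => ?_
      ring
    rw [h2]
    congr 1
    · refine Finset.sum_subset hΛ fun y _ hy => ?_
      rw [Finsupp.notMem_support_iff.mp hy]
      ring
    · refine Finset.sum_subset hΛ fun y _ hy => ?_
      rw [Finsupp.notMem_support_iff.mp hy]
      ring
  refine le_of_tendsto' hlim.abs fun Λ => ?_
  refine (hχ3 Λ g f).trans (mul_le_mul_of_nonneg_left ?_ hε)
  exact add_le_add (hg.sum_le_tsum Λ (fun y _ => sq_nonneg _))
    (hf.sum_le_tsum Λ (fun y _ => sq_nonneg _))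

/-- no solution for a nonreal energy -/
theorem nonreal (h : Adm T0 κ ρ0 b) (s : Sym2 (Fin d → ℤ) → Bool) (hc : CutOK T0 κ s)
    (V : (Fin d → ℤ) → ℝ) (a c : ℝ) (hc0 : c ≠ 0) (f g : (Fin d → ℤ) → ℝ)
    (hf : Summable fun y => f y ^ 2) (hg : Summable fun y => g y ^ 2)
    (e1 : ∀ y, (∑' w, Kf T0 κ s y w * f w) + V y * f y = a * f y - c * g y)
    (e2 : ∀ y, (∑' w, Kf T0 κ s y w * g w) + V y * g y = a * g y + c * f y)
    (y : Fin d → ℤ) : f y = 0 ∧ g y = 0 := by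
  classical
  set N := ∑' y, g y ^ 2 + ∑' y, f y ^ 2 with hN
  have hN0 : 0 ≤ N := add_nonneg (tsum_nonneg fun y => sq_nonneg _) (tsum_nonneg fun y => sq_nonneg _)
  have key : |c| * (f y ^ 2 + g y ^ 2) ≤ 0 := by
    refine le_of_forall_pos_le_add fun ε hε => ?_
    rw [zero_add]
    have hε' : 0 < ε / (N + 1) := by positivity
    obtain ⟨χ, hχ1, hχ2, hχ3⟩ := hc (ε / (N + 1)) hε' {y}
    have hb := comm_bound h s χ _ hε'.le hχ3 f g hf hg
    have hid : ∑ y ∈ χ.support, χ y * g y * ∑' w, Kf T0 κ s y w * f w -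
        ∑ w ∈ χ.support, χ w * f w * ∑' y, Kf T0 κ s w y * g y =
        -c * ∑ y ∈ χ.support, χ y * (f y ^ 2 + g y ^ 2) := by
      rw [← Finset.sum_sub_distrib, Finset.mul_sum]
      refine Finset.sum_congr rfl fun w _ => ?_
      have h1 := e1 w
      have h2 := e2 w
      linear_combination (χ w * g w) * h1 - (χ w * f w) * h2
    rw [hid, abs_mul, abs_neg] at hb
    have h3 : f y ^ 2 + g y ^ 2 ≤ |∑ y ∈ χ.support, χ y * (f y ^ 2 + g y ^ 2)| := by
      have hy1 : χ y = 1 := hχ2 y (Finset.mem_singleton_self y)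
      have hys : y ∈ χ.support := by
        rw [Finsupp.mem_support_iff, hy1]
        exact one_ne_zero
      have h4 := Finset.single_le_sum (f := fun y => χ y * (f y ^ 2 + g y ^ 2))
        (fun z _ => mul_nonneg (hχ1 z).1 (by positivity)) hys
      have h5 : f y ^ 2 + g y ^ 2 ≤ ∑ y ∈ χ.support, χ y * (f y ^ 2 + g y ^ 2) := by
        simpa [hy1] using h4
      exact h5.trans (le_abs_self _)
    have h6 := mul_le_mul_of_nonneg_left h3 (abs_nonneg c)
    refine h6.trans (hb.trans ?_)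
    calc ε / (N + 1) * N ≤ ε / (N + 1) * (N + 1) :=
          mul_le_mul_of_nonneg_left (by linarith) hε'.le
      _ = ε := by field_simp
  have hcpos : 0 < |c| := abs_pos.2 hc0
  have h7 : f y ^ 2 + g y ^ 2 ≤ 0 := by
    by_contra hcon
    push Not at hcon
    have := mul_pos hcpos hcon
    linarith
  constructor
  · have : f y ^ 2 = 0 := by nlinarith [sq_nonneg (f y), sq_nonneg (g y)]
    exact pow_eq_zero_iff (two_ne_zero) |>.1 this
  · have : g y ^ 2 = 0 := by nlinarith [sq_nonneg (f y), sq_nonneg (g y)]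
    exact pow_eq_zero_iff (two_ne_zero) |>.1 this

/-- for every complex `z` the only square summable solution of `H ψ = z ψ` is `0`: the operator is
essentially self-adjoint on finitely supported functions and has no eigenvalue -/
def NoSol (T0 : (Fin d → ℤ) → (Fin d → ℤ) → ℝ) (κ : (Fin d → ℤ) → ℝ)
    (s : Sym2 (Fin d → ℤ) → Bool) (V : (Fin d → ℤ) → ℝ) : Prop :=
  ∀ (z : ℂ) (ψ : (Fin d → ℤ) → ℂ), Summable (fun y => ‖ψ y‖ ^ 2) →
    (∀ y, (∑' w, ((Kf T0 κ s y w : ℝ) : ℂ) * ψ w) + ((V y : ℝ) : ℂ) * ψ y = z * ψ y) → ψ = 0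

theorem noSol_of (h : Adm T0 κ ρ0 b) (s : Sym2 (Fin d → ℤ) → Bool) (hc : CutOK T0 κ s)
    (V : (Fin d → ℤ) → ℝ)
    (hr : ∀ (E : ℝ) (ψ : (Fin d → ℤ) → ℝ), IsEig T0 κ s V E ψ → ψ = 0) : NoSol T0 κ s V := by
  intro z ψ hψ heq
  set f : (Fin d → ℤ) → ℝ := fun y => (ψ y).re with hf
  set g : (Fin d → ℤ) → ℝ := fun y => (ψ y).im with hg
  have hfs : Summable fun y => f y ^ 2 := by
    refine Summable.of_nonneg_of_le (fun y => sq_nonneg _) (fun y => ?_) hψ
    rw [← Complex.normSq_eq_norm_sq, Complex.normSq_apply]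
    nlinarith [sq_nonneg (ψ y).im]
  have hgs : Summable fun y => g y ^ 2 := by
    refine Summable.of_nonneg_of_le (fun y => sq_nonneg _) (fun y => ?_) hψ
    rw [← Complex.normSq_eq_norm_sq, Complex.normSq_apply]
    nlinarith [sq_nonneg (ψ y).re]
  have hK1 : ∀ y, Summable fun w => Kf T0 κ s y w * f w := fun y =>
    (cs_tsum (Kf_sq_summable h s y) hfs).1
  have hK2 : ∀ y, Summable fun w => Kf T0 κ s y w * g w := fun y =>
    (cs_tsum (Kf_sq_summable h s y) hgs).1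
  have hK : ∀ y, (∑' w, ((Kf T0 κ s y w : ℝ) : ℂ) * ψ w) =
      ((∑' w, Kf T0 κ s y w * f w : ℝ) : ℂ) + ((∑' w, Kf T0 κ s y w * g w : ℝ) : ℂ) * Complex.I := by
    intro y
    have h1 : HasSum (fun w => ((Kf T0 κ s y w * f w : ℝ) : ℂ))
        ((∑' w, Kf T0 κ s y w * f w : ℝ) : ℂ) := Complex.hasSum_ofReal.2 (hK1 y).hasSum
    have h2 : HasSum (fun w => ((Kf T0 κ s y w * g w : ℝ) : ℂ))
        ((∑' w, Kf T0 κ s y w * g w : ℝ) : ℂ) := Complex.hasSum_ofReal.2 (hK2 y).hasSum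
    have h3 := h1.add (h2.mul_right Complex.I)
    have h4 : (fun w => ((Kf T0 κ s y w * f w : ℝ) : ℂ) +
        ((Kf T0 κ s y w * g w : ℝ) : ℂ) * Complex.I) =
        fun w => ((Kf T0 κ s y w : ℝ) : ℂ) * ψ w := by
      funext w
      push_cast
      have h5 : ψ w = (f w : ℂ) + (g w : ℂ) * Complex.I := (Complex.re_add_im (ψ w)).symm
      rw [h5]
      ring
    rw [h4] at h3
    exact h3.tsum_eq
  have E1 : ∀ y, (∑' w, Kf T0 κ s y w * f w) + V y * f y = z.re * f y - z.im * g y := by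
    intro y
    have := congrArg Complex.re (heq y)
    rw [hK] at this
    simpa [hf, hg] using this
  have E2 : ∀ y, (∑' w, Kf T0 κ s y w * g w) + V y * g y = z.re * g y + z.im * f y := by
    intro y
    have := congrArg Complex.im (heq y)
    rw [hK] at this
    simpa [hf, hg] using this
  by_cases hz : z.im = 0
  · have F1 := hr z.re f ⟨hfs, fun y => by
      have := E1 y
      rw [hz] at this
      linarith⟩
    have F2 := hr z.re g ⟨hgs, fun y => by
      have := E2 y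
      rw [hz] at this
      linarith⟩
    funext y
    apply Complex.ext
    · exact congrFun F1 y
    · exact congrFun F2 y
  · funext y
    have := nonreal h s hc V z.re z.im hz f g hfs hgs E1 E2 y
    exact Complex.ext this.1 this.2

/-- **Main theorem, abstract form.** -/
theorem main_ae (h : Adm T0 κ ρ0 b) (v : NNReal) (hv : v ≠ 0) (hS : Shells κ) {δ : ℝ}
    (hδ : 0 < δ) (hδ2 : δ ≤ 2) (hs : Summable fun z : Fin d → ℤ => ‖z‖ ^ δ * κ z ^ 2) :
    ∀ᵐ q ∂((PV d v).prod (Ps d)), NoSol T0 κ q.2 q.1 := by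
  have hc := cut_ae h hδ hδ2 hs
  have hc' : ∀ᵐ q ∂((PV d v).prod (Ps d)), CutOK T0 κ q.2 :=
    (measurePreserving_snd (μ := PV d v) (ν := Ps d)).quasiMeasurePreserving.ae hc
  filter_upwards [no_eig h v hv hS hc, hc'] with q h1 h2
  exact noSol_of h q.2 h2 q.1 h1

end Pool.Agent.TH980.PL
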