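import Pool.Agent.TH980.PL.Khin

/-!
A bound of the form of a Hermitian matrix by the trace of an even power.
-/

set_option autoImplicit false

namespace Pool.Agent.TH980.PL

open Matrix Finset

variable {n : Type*} [Fintype n] [DecidableEq n]

theorem norm_conj (U : Matrix n n ℂ) (h2 : U * Uᴴ = 1) (u : n → ℂ) :
    ∑ i, ‖(Uᴴ *ᵥ u) i‖ ^ 2 = ∑ i, ‖u i‖ ^ 2 := by
  have key : ∀ w : n → ℂ, star w ⬝ᵥ w = ((∑ i, ‖w i‖ ^ 2 : ℝ) : ℂ) := by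
    intro w
    unfold dotProduct
    push_cast
    refine Finset.sum_congr rfl fun i _ => ?_
    rw [Pi.star_apply, RCLike.star_def, ← Complex.normSq_eq_conj_mul_self,
      Complex.normSq_eq_norm_sq]
    push_cast
    rfl
  have h3 : star (Uᴴ *ᵥ u) ⬝ᵥ (Uᴴ *ᵥ u) = star u ⬝ᵥ u := by
    rw [Matrix.star_mulVec, conjTranspose_conjTranspose, Matrix.dotProduct_mulVec,
      Matrix.vecMul_vecMul, h2, Matrix.vecMul_one]
  rw [key, key] at h3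
  exact_mod_cast h3

theorem form_bound (X : Matrix n n ℂ) (hX : X.IsHermitian) (p : ℕ) (hp : 1 ≤ p) (c : ℝ)
    (hc : 0 ≤ c) (ht : (X ^ (2 * p)).trace.re ≤ c ^ (2 * p)) (u v : n → ℂ) :
    ‖star u ⬝ᵥ (X *ᵥ v)‖ ≤ c / 2 * (∑ i, ‖u i‖ ^ 2 + ∑ i, ‖v i‖ ^ 2) := by
  obtain ⟨U, l, hU1, hU2, hXq⟩ := herm_spec X hX
  have h1 : (X ^ (2 * p)).trace.re = ∑ i, l i ^ (2 * p) := by
    rw [hXq, Matrix.trace_mul_comm, ← Matrix.mul_assoc, hU1, Matrix.one_mul,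
      Matrix.trace_diagonal, Complex.re_sum]
    refine Finset.sum_congr rfl fun i _ => ?_
    rw [← Complex.ofReal_pow, Complex.ofReal_re]
  have h2 : ∀ i, |l i| ≤ c := by
    intro i
    have h3 : l i ^ (2 * p) ≤ c ^ (2 * p) := by
      refine le_trans ?_ ht
      rw [h1]
      exact Finset.single_le_sum (f := fun i => l i ^ (2 * p))
        (fun j _ => by rw [pow_mul]; positivity) (Finset.mem_univ i)
    have h4 : |l i| ^ (2 * p) ≤ c ^ (2 * p) := by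
      rw [pow_mul, sq_abs, ← pow_mul]
      exact h3
    exact le_of_pow_le_pow_left₀ (by omega) hc h4
  have hX1 : X = U * diagonal (fun i => ((l i : ℝ) : ℂ)) * Uᴴ := by
    have := hXq 1
    simpa using this
  have h5 : star u ⬝ᵥ (X *ᵥ v) =
      ∑ i, star ((Uᴴ *ᵥ u) i) * ((l i : ℝ) : ℂ) * (Uᴴ *ᵥ v) i := by
    have e1 : X *ᵥ v = U *ᵥ (diagonal (fun i => ((l i : ℝ) : ℂ)) *ᵥ (Uᴴ *ᵥ v)) := by
      rw [Matrix.mulVec_mulVec, Matrix.mulVec_mulVec, ← hX1]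
    have e2 : star u ᵥ* U = star (Uᴴ *ᵥ u) := by
      rw [Matrix.star_mulVec, conjTranspose_conjTranspose]
    rw [e1, Matrix.dotProduct_mulVec, e2]
    unfold dotProduct
    refine Finset.sum_congr rfl fun i _ => ?_
    rw [Matrix.mulVec_diagonal, Pi.star_apply]
    ring
  rw [h5, ← norm_conj U hU2 u, ← norm_conj U hU2 v, ← Finset.sum_add_distrib, Finset.mul_sum]
  refine (norm_sum_le _ _).trans (Finset.sum_le_sum fun i _ => ?_)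
  rw [norm_mul, norm_mul, norm_star, Complex.norm_real, Real.norm_eq_abs]
  have h6 := h2 i
  have h7 := two_mul_le_add_sq ‖(Uᴴ *ᵥ u) i‖ ‖(Uᴴ *ᵥ v) i‖
  have h8 : 0 ≤ ‖(Uᴴ *ᵥ u) i‖ * ‖(Uᴴ *ᵥ v) i‖ := by positivity
  calc ‖(Uᴴ *ᵥ u) i‖ * |l i| * ‖(Uᴴ *ᵥ v) i‖ = |l i| * (‖(Uᴴ *ᵥ u) i‖ * ‖(Uᴴ *ᵥ v) i‖) := by ring
    _ ≤ c * (‖(Uᴴ *ᵥ u) i‖ * ‖(Uᴴ *ᵥ v) i‖) := mul_le_mul_of_nonneg_right h6 h8
    _ ≤ c / 2 * (‖(Uᴴ *ᵥ u) i‖ ^ 2 + ‖(Uᴴ *ᵥ v) i‖ ^ 2) := by nlinarith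

end Pool.Agent.TH980.PL
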