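import Pool.Agent.TH980.PL.KhinE
import Pool.Agent.TH980.PL.FormB
import Pool.Agent.H10R2.PL.AsmB

/-!
Almost surely there are slowly varying cut-offs with small commutator (essential
self-adjointness), by the matrix Khintchine inequality.
-/

set_option autoImplicit false

namespace Pool.Agent.TH980.PL

open Matrix Finset MeasureTheory H10PL

variable {d : ℕ} {T0 : (Fin d → ℤ) → (Fin d → ℤ) → ℝ} {κ : (Fin d → ℤ) → ℝ} {ρ0 b : ℝ}

/-- the cut-off -/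
noncomputable def chi (R : ℝ) (y : Fin d → ℤ) : ℝ := max 0 (min 1 (2 - ‖y‖ / R))

theorem chi_nonneg (R : ℝ) (y : Fin d → ℤ) : 0 ≤ chi R y := le_max_left _ _

theorem chi_le_one (R : ℝ) (y : Fin d → ℤ) : chi R y ≤ 1 :=
  max_le zero_le_one (min_le_left _ _)

theorem chi_one {R : ℝ} (hR : 0 < R) {y : Fin d → ℤ} (hy : ‖y‖ ≤ R) : chi R y = 1 := by
  unfold chi
  have : ‖y‖ / R ≤ 1 := (div_le_one hR).2 hy
  rw [min_eq_left (by linarith), max_eq_right zero_le_one]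

theorem chi_zero {R : ℝ} (hR : 0 < R) {y : Fin d → ℤ} (hy : 2 * R < ‖y‖) : chi R y = 0 := by
  unfold chi
  have : 2 < ‖y‖ / R := (lt_div_iff₀ hR).2 hy
  refine max_eq_left ((min_le_right _ _).trans (by linarith))

theorem chi_lip {R : ℝ} (hR : 0 < R) (y w : Fin d → ℤ) :
    |chi R y - chi R w| ≤ ‖y - w‖ / R := by
  have h1 : |chi R y - chi R w| ≤ |(2 - ‖y‖ / R) - (2 - ‖w‖ / R)| := by
    unfold chi
    refine (abs_max_sub_max_le_max _ _ _ _).trans ?_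
    rw [sub_self, abs_zero]
    refine max_le (abs_nonneg _) ?_
    refine (abs_min_sub_min_le_max _ _ _ _).trans ?_
    rw [sub_self, abs_zero]
    exact max_le (abs_nonneg _) le_rfl
  refine h1.trans ?_
  have h2 : (2 - ‖y‖ / R) - (2 - ‖w‖ / R) = -((‖y‖ - ‖w‖) / R) := by ring
  rw [h2, abs_neg, abs_div, abs_of_pos hR]
  exact div_le_div_of_nonneg_right (abs_norm_sub_norm_le _ _) hR.le

theorem chi_diff (R : ℝ) (y w : Fin d → ℤ) : |chi R y - chi R w| ≤ 1 := by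
  rw [abs_le]
  have h1 := chi_nonneg R y
  have h2 := chi_nonneg R w
  have h3 := chi_le_one R y
  have h4 := chi_le_one R w
  constructor <;> linarith

theorem chi_supp {R : ℝ} (hR : 0 < R) : (Function.support (chi R : (Fin d → ℤ) → ℝ)).Finite := by
  refine (ball_finite (0 : Fin d → ℤ) (2 * R)).subset fun y hy => ?_
  by_contra h
  apply hy
  refine chi_zero hR ?_
  simpa using h

/-- the matrices of the commutator -/
noncomputable def AA (κ : (Fin d → ℤ) → ℝ) (R : ℝ) (Λ : Finset (Fin d → ℤ))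
    (e : Sym2 (Fin d → ℤ)) : Matrix Λ Λ ℂ := by
  classical
  exact fun i j => if s((i : Fin d → ℤ), (j : Fin d → ℤ)) = e then
    Complex.I * (((chi R (i : Fin d → ℤ) - chi R (j : Fin d → ℤ)) *
      κ ((i : Fin d → ℤ) - j) : ℝ) : ℂ) else 0

/-- the edges of the box -/
noncomputable def JJ (Λ : Finset (Fin d → ℤ)) : Finset (Sym2 (Fin d → ℤ)) := by
  classical
  exact (Λ ×ˢ Λ).image fun p => s(p.1, p.2)

/-- the diagonal -/
noncomputable def DD (κ : (Fin d → ℤ) → ℝ) (R : ℝ) (Λ : Finset (Fin d → ℤ)) (i : Λ) : ℝ :=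
  ∑ k : Λ, ((chi R (i : Fin d → ℤ) - chi R (k : Fin d → ℤ)) * κ ((i : Fin d → ℤ) - k)) ^ 2

theorem mem_JJ {Λ : Finset (Fin d → ℤ)} (i j : Λ) :
    s((i : Fin d → ℤ), (j : Fin d → ℤ)) ∈ JJ Λ := by
  classical
  unfold JJ
  rw [Finset.mem_image]
  exact ⟨(i, j), Finset.mk_mem_product i.2 j.2, rfl⟩

theorem AA_herm (h : Adm T0 κ ρ0 b) (R : ℝ) (Λ : Finset (Fin d → ℤ)) (e : Sym2 (Fin d → ℤ)) :
    (AA κ R Λ e).IsHermitian := by
  classical
  apply Matrix.IsHermitian.ext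
  intro i j
  unfold AA
  rw [Sym2.eq_swap]
  split_ifs with h1
  · rw [RCLike.star_def, map_mul, Complex.conj_I, Complex.conj_ofReal]
    have h2 : κ ((j : Fin d → ℤ) - i) = κ ((i : Fin d → ℤ) - j) := by
      rw [← h.κsymm, neg_sub]
    rw [h2]
    push_cast
    ring
  · simp

theorem AA_sq (h : Adm T0 κ ρ0 b) (R : ℝ) (Λ : Finset (Fin d → ℤ)) :
    ∑ e ∈ JJ Λ, AA κ R Λ e * AA κ R Λ e = diagonal (fun i => ((DD κ R Λ i : ℝ) : ℂ)) := by
  classical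
  ext i j
  rw [Matrix.sum_apply]
  simp only [Matrix.mul_apply]
  rw [Finset.sum_comm]
  have h1 : ∀ k : Λ, ∑ e ∈ JJ Λ, AA κ R Λ e i k * AA κ R Λ e k j =
      if i = j then ((((chi R (i : Fin d → ℤ) - chi R (k : Fin d → ℤ)) *
        κ ((i : Fin d → ℤ) - k)) ^ 2 : ℝ) : ℂ) else 0 := by
    intro k
    rw [Finset.sum_eq_single_of_mem (s((i : Fin d → ℤ), (k : Fin d → ℤ))) (mem_JJ i k)]
    · unfold AA
      rw [if_pos rfl]
      by_cases hij : i = j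
      · subst hij
        rw [if_pos rfl, if_pos Sym2.eq_swap]
        have h2 : κ ((k : Fin d → ℤ) - i) = κ ((i : Fin d → ℤ) - k) := by
          rw [← h.κsymm, neg_sub]
        rw [h2]
        push_cast
        have := Complex.I_sq
        linear_combination (((chi R (i : Fin d → ℤ) : ℂ) - (chi R (k : Fin d → ℤ) : ℂ)) *
          ((chi R (k : Fin d → ℤ) : ℂ) - (chi R (i : Fin d → ℤ) : ℂ)) *
          (κ ((i : Fin d → ℤ) - k) : ℂ) ^ 2) * this
      · rw [if_neg hij, if_neg, mul_zero]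
        intro h3
        rw [Sym2.eq_iff] at h3
        rcases h3 with ⟨h3, h4⟩ | ⟨_, h4⟩
        · exact hij (Subtype.ext (h3.symm.trans h4.symm))
        · exact hij (Subtype.ext h4.symm)
    · intro e _ hne
      unfold AA
      rw [if_neg (fun h3 => hne h3.symm), zero_mul]
  rw [Finset.sum_congr rfl fun k _ => h1 k]
  by_cases hij : i = j
  · subst hij
    rw [Matrix.diagonal_apply_eq]
    simp only [if_true]
    unfold DD
    push_cast
    rfl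
  · rw [Matrix.diagonal_apply_ne _ hij]
    simp [hij]

theorem XX_entry (R : ℝ) (Λ : Finset (Fin d → ℤ)) (s : Sym2 (Fin d → ℤ) → Bool) (i j : Λ) :
    XX (JJ Λ) (AA κ R Λ) s i j = Complex.I * (((chi R (i : Fin d → ℤ) - chi R (j : Fin d → ℤ)) *
      (sg (s s((i : Fin d → ℤ), (j : Fin d → ℤ))) * κ ((i : Fin d → ℤ) - j)) : ℝ) : ℂ) := by
  classical
  unfold XX
  rw [Matrix.sum_apply]
  rw [Finset.sum_eq_single_of_mem (s((i : Fin d → ℤ), (j : Fin d → ℤ))) (mem_JJ i j)]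
  · rw [Matrix.smul_apply, smul_eq_mul]
    unfold AA
    rw [if_pos rfl]
    push_cast
    ring
  · intro e _ hne
    rw [Matrix.smul_apply]
    unfold AA
    rw [if_neg (fun h3 => hne h3.symm), smul_zero]

/-- the number of points in a ball -/
noncomputable def NB (d : ℕ) (R : ℝ) : ℝ :=
  ((ball_finite (0 : Fin d → ℤ) (2 * R)).toFinset.card : ℝ)

theorem DD_sum (h : Adm T0 κ ρ0 b) {R : ℝ} (hR : 0 < R) (Λ : Finset (Fin d → ℤ)) :
    ∑ i, DD κ R Λ i ≤ 2 * NB d R * ∑' z, κ z ^ 2 := by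
  classical
  set K2 := ∑' z, κ z ^ 2 with hK2
  have hK0 : 0 ≤ K2 := tsum_nonneg fun z => sq_nonneg _
  set B := (ball_finite (0 : Fin d → ℤ) (2 * R)).toFinset with hB
  have hmB : ∀ y, y ∈ B ↔ ‖y‖ ≤ 2 * R := by
    intro y
    rw [hB]
    simp
  have h0 : ∑ i, DD κ R Λ i = ∑ i ∈ Λ, ∑ k ∈ Λ, ((chi R i - chi R k) * κ (i - k)) ^ 2 := by
    unfold DD
    rw [← Finset.sum_coe_sort Λ (fun i => ∑ k ∈ Λ, ((chi R i - chi R k) * κ (i - k)) ^ 2)]
    refine Finset.sum_congr rfl fun i _ => ?_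
    rw [← Finset.sum_coe_sort Λ]
  rw [h0]
  have h1 : ∀ i k : Fin d → ℤ, ((chi R i - chi R k) * κ (i - k)) ^ 2 ≤
      (if i ∈ B then κ (i - k) ^ 2 else 0) + (if k ∈ B then κ (i - k) ^ 2 else 0) := by
    intro i k
    have h2 : (chi R i - chi R k) ^ 2 ≤ 1 := by
      rw [← sq_abs]
      have := chi_diff R i k
      have h3 := abs_nonneg (chi R i - chi R k)
      nlinarith
    have h4 : ((chi R i - chi R k) * κ (i - k)) ^ 2 ≤ κ (i - k) ^ 2 := by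
      rw [mul_pow]
      nlinarith [sq_nonneg (κ (i - k))]
    by_cases hi : i ∈ B
    · rw [if_pos hi]
      refine h4.trans (le_add_of_nonneg_right ?_)
      split_ifs
      · exact sq_nonneg _
      · exact le_rfl
    · by_cases hk : k ∈ B
      · rw [if_pos hk, if_neg hi, zero_add]
        exact h4
      · rw [hmB] at hi hk
        rw [chi_zero hR (not_le.1 hi), chi_zero hR (not_le.1 hk), sub_self, zero_mul]
        have : (0 : ℝ) ^ 2 = 0 := by norm_num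
        rw [this]
        split_ifs <;> positivity
  refine (Finset.sum_le_sum fun i _ => Finset.sum_le_sum fun k _ => h1 i k).trans ?_
  simp only [Finset.sum_add_distrib]
  have h5 : ∑ i ∈ Λ, ∑ k ∈ Λ, (if i ∈ B then κ (i - k) ^ 2 else 0) ≤ NB d R * K2 := by
    calc ∑ i ∈ Λ, ∑ k ∈ Λ, (if i ∈ B then κ (i - k) ^ 2 else 0)
        = ∑ i ∈ Λ, (if i ∈ B then ∑ k ∈ Λ, κ (i - k) ^ 2 else 0) := by
          refine Finset.sum_congr rfl fun i _ => ?_
          split_ifs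
          · rfl
          · simp
      _ = ∑ i ∈ Λ.filter (· ∈ B), ∑ k ∈ Λ, κ (i - k) ^ 2 := by
          rw [Finset.sum_filter]
      _ ≤ ∑ i ∈ Λ.filter (· ∈ B), K2 := Finset.sum_le_sum fun i _ => κ_sq_sum h i Λ
      _ = ((Λ.filter (· ∈ B)).card : ℝ) * K2 := by rw [Finset.sum_const, nsmul_eq_mul]
      _ ≤ (B.card : ℝ) * K2 := by
          refine mul_le_mul_of_nonneg_right ?_ hK0
          exact_mod_cast Finset.card_le_card fun y hy => (Finset.mem_filter.1 hy).2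
      _ = NB d R * K2 := rfl
  have h6 : ∑ i ∈ Λ, ∑ k ∈ Λ, (if k ∈ B then κ (i - k) ^ 2 else 0) =
      ∑ i ∈ Λ, ∑ k ∈ Λ, (if i ∈ B then κ (i - k) ^ 2 else 0) := by
    rw [Finset.sum_comm]
    refine Finset.sum_congr rfl fun i _ => Finset.sum_congr rfl fun k _ => ?_
    rw [← h.κsymm (i - k), neg_sub]
  rw [h6]
  linarith

/-- the variance proxy -/
theorem DD_le {R δ : ℝ} (hR : 0 < R) (hδ : 0 < δ) (hδ2 : δ ≤ 2)
    (hs : Summable fun z : Fin d → ℤ => ‖z‖ ^ δ * κ z ^ 2) (Λ : Finset (Fin d → ℤ)) (i : Λ) :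
    DD κ R Λ i ≤ (∑' z : Fin d → ℤ, ‖z‖ ^ δ * κ z ^ 2) / R ^ δ := by
  classical
  have h1 : ∀ k : Fin d → ℤ, ((chi R (i : Fin d → ℤ) - chi R k) * κ ((i : Fin d → ℤ) - k)) ^ 2 ≤
      ‖(i : Fin d → ℤ) - k‖ ^ δ * κ ((i : Fin d → ℤ) - k) ^ 2 / R ^ δ := by
    intro k
    set x : ℝ := ‖(i : Fin d → ℤ) - k‖ / R with hx
    have hx0 : 0 ≤ x := by positivity
    have h2 : (chi R (i : Fin d → ℤ) - chi R k) ^ 2 ≤ x ^ δ := by
      rw [← sq_abs]
      have h3 := chi_lip hR (i : Fin d → ℤ) k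
      have h4 := chi_diff R (i : Fin d → ℤ) k
      have h5 := abs_nonneg (chi R (i : Fin d → ℤ) - chi R k)
      rcases le_total x 1 with hx1 | hx1
      · have h6 : |chi R (i : Fin d → ℤ) - chi R k| ^ 2 ≤ x ^ 2 := pow_le_pow_left₀ h5 h3 2
        refine h6.trans ?_
        rcases hx0.eq_or_lt with h7 | h7
        · rw [← h7, Real.zero_rpow hδ.ne']
          norm_num
        · rw [← Real.rpow_natCast]
          exact Real.rpow_le_rpow_of_exponent_ge h7 hx1 (by push_cast; exact hδ2)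
      · have h6 : |chi R (i : Fin d → ℤ) - chi R k| ^ 2 ≤ 1 := by nlinarith
        exact h6.trans (Real.one_le_rpow hx1 hδ.le)
    have h3 : x ^ δ = ‖(i : Fin d → ℤ) - k‖ ^ δ / R ^ δ :=
      Real.div_rpow (norm_nonneg _) hR.le δ
    rw [mul_pow]
    calc (chi R (i : Fin d → ℤ) - chi R k) ^ 2 * κ ((i : Fin d → ℤ) - k) ^ 2
        ≤ x ^ δ * κ ((i : Fin d → ℤ) - k) ^ 2 := mul_le_mul_of_nonneg_right h2 (sq_nonneg _)
      _ = _ := by rw [h3]; ring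
  unfold DD
  rw [Finset.sum_coe_sort Λ (fun k => ((chi R (i : Fin d → ℤ) - chi R k) *
    κ ((i : Fin d → ℤ) - k)) ^ 2)]
  refine (Finset.sum_le_sum fun k _ => h1 k).trans ?_
  rw [← Finset.sum_div]
  refine div_le_div_of_nonneg_right ?_ (Real.rpow_nonneg hR.le δ)
  have hinj : Set.InjOn (fun w => (i : Fin d → ℤ) - w) (Λ : Set (Fin d → ℤ)) := by
    intro a _ c _ hac
    simpa using hac
  rw [← Finset.sum_image (f := fun z : Fin d → ℤ => ‖z‖ ^ δ * κ z ^ 2) hinj]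
  exact hs.sum_le_tsum _ (fun z _ => by positivity)

/-- the constant of the matrix Khintchine inequality -/
noncomputable def Cp (p : ℕ) : ℝ := ∏ j ∈ range (p + 1), (2 * (j : ℝ) + 1)

theorem Cp_nonneg (p : ℕ) : 0 ≤ Cp p := Finset.prod_nonneg fun j _ => by positivity

theorem XX_moment (h : Adm T0 κ ρ0 b) {R δ : ℝ} (hR : 0 < R) (hδ : 0 < δ) (hδ2 : δ ≤ 2)
    (hs : Summable fun z : Fin d → ℤ => ‖z‖ ^ δ * κ z ^ 2) (Λ : Finset (Fin d → ℤ)) (p : ℕ) :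
    ∫ s, (XX (JJ Λ) (AA κ R Λ) s ^ (2 * p + 2)).trace.re ∂(Ps d) ≤
      Cp p * ((∑' z : Fin d → ℤ, ‖z‖ ^ δ * κ z ^ 2) / R ^ δ) ^ p *
        (2 * NB d R * ∑' z, κ z ^ 2) := by
  have hv0 : 0 ≤ (∑' z : Fin d → ℤ, ‖z‖ ^ δ * κ z ^ 2) / R ^ δ :=
    div_nonneg (tsum_nonneg fun z => by positivity) (Real.rpow_nonneg hR.le δ)
  refine (khin (JJ Λ) (AA κ R Λ) (AA_herm h R Λ) (DD κ R Λ) (AA_sq h R Λ) _ hv0
    (fun i => DD_le hR hδ hδ2 hs Λ i) p).trans ?_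
  refine mul_le_mul_of_nonneg_left (DD_sum h hR Λ) ?_
  exact mul_nonneg (Cp_nonneg p) (pow_nonneg hv0 p)

/-- the commutator form is small -/
def SmallC (T0 : (Fin d → ℤ) → (Fin d → ℤ) → ℝ) (κ : (Fin d → ℤ) → ℝ)
    (s : Sym2 (Fin d → ℤ) → Bool) (R ε : ℝ) (Λ : Finset (Fin d → ℤ)) : Prop :=
  ∀ (u v : (Fin d → ℤ) → ℝ),
    |∑ y ∈ Λ, ∑ w ∈ Λ, (chi R y - chi R w) * Kf T0 κ s y w * (u y * v w)| ≤
      ε * (∑ y ∈ Λ, u y ^ 2 + ∑ y ∈ Λ, v y ^ 2)

/-- deterministic part -/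
theorem det_part (h : Adm T0 κ ρ0 b) {R : ℝ} (hR : 0 < R) (Λ : Finset (Fin d → ℤ))
    (u v : (Fin d → ℤ) → ℝ) :
    |∑ y ∈ Λ, ∑ w ∈ Λ, (chi R y - chi R w) * T0 y w * (u y * v w)| ≤
      (|ρ0| / R * b) / 2 * (∑ y ∈ Λ, u y ^ 2 + ∑ y ∈ Λ, v y ^ 2) := by
  have h1 : ∀ y w, |(chi R y - chi R w) * T0 y w * (u y * v w)| ≤
      |ρ0| / R / 2 * (|T0 y w| * u y ^ 2) + |ρ0| / R / 2 * (|T0 y w| * v w ^ 2) := by
    intro y w
    by_cases hyw : ρ0 < ‖y - w‖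
    · rw [h.T0range y w hyw]
      simp
    · push Not at hyw
      have h2 : |chi R y - chi R w| ≤ |ρ0| / R :=
        (chi_lip hR y w).trans (div_le_div_of_nonneg_right (hyw.trans (le_abs_self _)) hR.le)
      have h3 : 0 ≤ |ρ0| / R := by positivity
      rw [abs_mul, abs_mul, abs_mul]
      have h4 := two_mul_le_add_sq |u y| |v w|
      rw [sq_abs, sq_abs] at h4
      have h5 : |chi R y - chi R w| * |T0 y w| * (|u y| * |v w|) ≤
          |ρ0| / R * |T0 y w| * (|u y| * |v w|) := by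
        refine mul_le_mul_of_nonneg_right (mul_le_mul_of_nonneg_right h2 (abs_nonneg _)) ?_
        positivity
      refine h5.trans ?_
      have h6 : 0 ≤ |ρ0| / R * |T0 y w| := by positivity
      nlinarith
  have h7 : |∑ y ∈ Λ, ∑ w ∈ Λ, (chi R y - chi R w) * T0 y w * (u y * v w)| ≤
      ∑ y ∈ Λ, ∑ w ∈ Λ, (|ρ0| / R / 2 * (|T0 y w| * u y ^ 2) +
        |ρ0| / R / 2 * (|T0 y w| * v w ^ 2)) := by
    refine (Finset.abs_sum_le_sum_abs _ _).trans (Finset.sum_le_sum fun y _ => ?_)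
    exact (Finset.abs_sum_le_sum_abs _ _).trans (Finset.sum_le_sum fun w _ => h1 y w)
  refine h7.trans ?_
  simp only [Finset.sum_add_distrib, ← Finset.mul_sum]
  have h8 : ∑ y ∈ Λ, ∑ w ∈ Λ, |T0 y w| * u y ^ 2 ≤ b * ∑ y ∈ Λ, u y ^ 2 := by
    rw [Finset.mul_sum]
    refine Finset.sum_le_sum fun y _ => ?_
    rw [← Finset.sum_mul]
    exact mul_le_mul_of_nonneg_right (h.T0sum y Λ) (sq_nonneg _)
  have h9 : ∑ y ∈ Λ, ∑ w ∈ Λ, |T0 y w| * v w ^ 2 ≤ b * ∑ y ∈ Λ, v y ^ 2 := by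
    rw [Finset.sum_comm, Finset.mul_sum]
    refine Finset.sum_le_sum fun w _ => ?_
    rw [← Finset.sum_mul]
    refine mul_le_mul_of_nonneg_right ?_ (sq_nonneg _)
    have : ∀ y, |T0 y w| = |T0 w y| := fun y => by rw [h.T0symm]
    simp only [this]
    exact h.T0sum w Λ
  have h10 : 0 ≤ |ρ0| / R / 2 := by positivity
  have h11 := mul_le_mul_of_nonneg_left h8 h10
  have h12 := mul_le_mul_of_nonneg_left h9 h10
  simp only [Finset.mul_sum] at h11 h12 ⊢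
  simp only [← Finset.mul_sum] at h11 h12 ⊢
  calc _ ≤ |ρ0| / R / 2 * (b * ∑ y ∈ Λ, u y ^ 2) + |ρ0| / R / 2 * (b * ∑ y ∈ Λ, v y ^ 2) :=
        add_le_add h11 h12
    _ = _ := by ring

/-- the random part is controlled by the trace -/
theorem rand_part {R c : ℝ} (hc : 0 ≤ c) (Λ : Finset (Fin d → ℤ))
    (s : Sym2 (Fin d → ℤ) → Bool) (h : Adm T0 κ ρ0 b) (p : ℕ)
    (ht : (XX (JJ Λ) (AA κ R Λ) s ^ (2 * p + 2)).trace.re ≤ c ^ (2 * p + 2))
    (u v : (Fin d → ℤ) → ℝ) :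
    |∑ y ∈ Λ, ∑ w ∈ Λ, (chi R y - chi R w) * (sg (s s(y, w)) * κ (y - w)) * (u y * v w)| ≤
      c / 2 * (∑ y ∈ Λ, u y ^ 2 + ∑ y ∈ Λ, v y ^ 2) := by
  classical
  have hH := XX_herm (JJ Λ) (AA κ R Λ) (AA_herm h R Λ) s
  have e : 2 * p + 2 = 2 * (p + 1) := by ring
  rw [e] at ht
  have h1 := form_bound _ hH (p + 1) (by omega) c hc ht (fun i => ((u i : ℝ) : ℂ))
    (fun i => ((v i : ℝ) : ℂ))
  have h2 : star (fun i : Λ => ((u i : ℝ) : ℂ)) ⬝ᵥ
      (XX (JJ Λ) (AA κ R Λ) s *ᵥ (fun i : Λ => ((v i : ℝ) : ℂ))) =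
      Complex.I * ((∑ y ∈ Λ, ∑ w ∈ Λ, (chi R y - chi R w) * (sg (s s(y, w)) * κ (y - w)) *
        (u y * v w) : ℝ) : ℂ) := by
    unfold dotProduct Matrix.mulVec dotProduct
    rw [← Finset.sum_coe_sort Λ (fun y => ∑ w ∈ Λ, (chi R y - chi R w) *
      (sg (s s(y, w)) * κ (y - w)) * (u y * v w))]
    rw [Complex.ofReal_sum, Finset.mul_sum]
    refine Finset.sum_congr rfl fun i _ => ?_
    rw [← Finset.sum_coe_sort Λ (fun w => (chi R (i : Fin d → ℤ) - chi R w) *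
      (sg (s s((i : Fin d → ℤ), w)) * κ ((i : Fin d → ℤ) - w)) * (u i * v w))]
    rw [Complex.ofReal_sum, Finset.mul_sum, Finset.mul_sum]
    refine Finset.sum_congr rfl fun j _ => ?_
    dsimp only [Pi.star_apply]
    rw [XX_entry, RCLike.star_def, Complex.conj_ofReal]
    push_cast
    ring
  rw [h2, norm_mul, Complex.norm_I, one_mul, Complex.norm_real, Real.norm_eq_abs] at h1
  simp only [Complex.norm_real, Real.norm_eq_abs, sq_abs] at h1
  rw [Finset.sum_coe_sort Λ (fun y => u y ^ 2), Finset.sum_coe_sort Λ (fun y => v y ^ 2)] at h1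
  exact h1

theorem small_of {R ε : ℝ} (hR : 0 < R) (hε : 0 < ε) (h : Adm T0 κ ρ0 b)
    (hRb : |ρ0| / R * b ≤ ε) (Λ : Finset (Fin d → ℤ)) (s : Sym2 (Fin d → ℤ) → Bool) (p : ℕ)
    (ht : (XX (JJ Λ) (AA κ R Λ) s ^ (2 * p + 2)).trace.re ≤ ε ^ (2 * p + 2)) :
    SmallC T0 κ s R ε Λ := by
  intro u v
  have h1 := det_part h hR Λ u v
  have h2 := rand_part hε.le Λ s h p ht u v
  have h3 : ∑ y ∈ Λ, ∑ w ∈ Λ, (chi R y - chi R w) * Kf T0 κ s y w * (u y * v w) =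
      ∑ y ∈ Λ, ∑ w ∈ Λ, (chi R y - chi R w) * T0 y w * (u y * v w) +
      ∑ y ∈ Λ, ∑ w ∈ Λ, (chi R y - chi R w) * (sg (s s(y, w)) * κ (y - w)) * (u y * v w) := by
    rw [← Finset.sum_add_distrib]
    refine Finset.sum_congr rfl fun y _ => ?_
    rw [← Finset.sum_add_distrib]
    refine Finset.sum_congr rfl fun w _ => ?_
    unfold Kf
    ring
  rw [h3]
  have hN : 0 ≤ ∑ y ∈ Λ, u y ^ 2 + ∑ y ∈ Λ, v y ^ 2 := by positivity
  have h4 : (|ρ0| / R * b) / 2 * (∑ y ∈ Λ, u y ^ 2 + ∑ y ∈ Λ, v y ^ 2) ≤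
      ε / 2 * (∑ y ∈ Λ, u y ^ 2 + ∑ y ∈ Λ, v y ^ 2) :=
    mul_le_mul_of_nonneg_right (by linarith) hN
  refine (abs_add_le _ _).trans ?_
  linarith

end Pool.Agent.TH980.PL
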