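import Pool.Agent.TH980.PL.Power

/-!
Explicit examples: the lattice Laplacian with random long range hopping of power law type.
-/

set_option autoImplicit false

namespace Pool.Agent.TH980.PL

open Finset MeasureTheory H10PL Filter Topology

variable {d : ℕ}

/-- kernel of the lattice Laplacian `(Δψ)(y) = ∑_{|w-y|_1=1} ψ(w)` -/
def Lap (d : ℕ) (y w : Fin d → ℤ) : ℝ := if ∑ i, |y i - w i| = 1 then 1 else 0

theorem Lap_norm {y w : Fin d → ℤ} (h : ∑ i, |y i - w i| = 1) : ‖y - w‖ ≤ 1 := by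
  rw [pi_norm_le_iff_of_nonneg zero_le_one]
  intro i
  rw [Pi.sub_apply, Int.norm_eq_abs]
  have h1 : |y i - w i| ≤ ∑ i, |y i - w i| :=
    Finset.single_le_sum (f := fun i => |y i - w i|) (fun j _ => abs_nonneg _) (Finset.mem_univ i)
  rw [h] at h1
  exact_mod_cast h1

theorem Lap_adm (κ : (Fin d → ℤ) → ℝ) (h0 : κ 0 = 0) (hs : ∀ z, κ (-z) = κ z)
    (hq : Summable fun z => κ z ^ 2) :
    Adm (Lap d) κ 1 ((ball_finite (0 : Fin d → ℤ) 1).toFinset.card : ℝ) where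
  T0symm := by
    intro y w
    unfold Lap
    have : ∑ i, |y i - w i| = ∑ i, |w i - y i| :=
      Finset.sum_congr rfl fun i _ => abs_sub_comm _ _
    rw [this]
  T0diag := by
    intro y
    unfold Lap
    simp
  T0range := by
    intro y w hyw
    unfold Lap
    rw [if_neg]
    intro h
    exact absurd (Lap_norm h) (not_le.2 hyw)
  T0sum := by
    classical
    intro y F
    have h1 : ∑ w ∈ F, |Lap d y w| = ((F.filter fun w => ∑ i, |y i - w i| = 1).card : ℝ) := by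
      rw [Finset.card_filter]
      push_cast
      refine Finset.sum_congr rfl fun w _ => ?_
      unfold Lap
      split_ifs <;> simp
    rw [h1]
    have h2 : (F.filter fun w => ∑ i, |y i - w i| = 1).card ≤
        (ball_finite (0 : Fin d → ℤ) 1).toFinset.card := by
      refine Finset.card_le_card_of_injOn (fun w => y - w) ?_ ?_
      · intro w hw
        have hw' := (Finset.mem_filter.1 hw).2
        have := Lap_norm hw'
        simpa using this
      · intro a _ c _ hac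
        simpa using hac
    exact_mod_cast h2
  κ0 := h0
  κsymm := hs
  κsq := hq

theorem sq_summable_of {κ : (Fin d → ℤ) → ℝ} (h0 : κ 0 = 0) {δ : ℝ} (hδ : 0 < δ)
    (hs : Summable fun z : Fin d → ℤ => ‖z‖ ^ δ * κ z ^ 2) : Summable fun z => κ z ^ 2 := by
  refine Summable.of_nonneg_of_le (fun z => sq_nonneg _) (fun z => ?_) hs
  by_cases hz : z = 0
  · subst hz
    rw [h0]
    simp
  · have h1 : 1 ≤ ‖z‖ ^ δ := Real.one_le_rpow (one_le_norm hz) hδ.le
    nlinarith [sq_nonneg (κ z)]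

/-- the point `(n, …, n)` -/
theorem norm_const (hd : 0 < d) (n : ℕ) : ‖(fun _ : Fin d => (n : ℤ))‖ = n := by
  haveI : Nonempty (Fin d) := ⟨⟨0, hd⟩⟩
  rw [pi_norm_const, Int.norm_eq_abs]
  simp

/-- **Power laws**: all exponents `d/2 < α < d`. -/
theorem power_law (hd : 0 < d) (v : NNReal) (hv : v ≠ 0) (α ε : ℝ) (h1 : (d : ℝ) / 2 < α)
    (h2 : α < d) (hε : ε ≠ 0) :
    ∀ᵐ q ∂((PV d v).prod (Ps d)), NoSol (Lap d) (fun z => ε * ‖z‖ ^ (-α)) q.2 q.1 := by
  have hd' : (0 : ℝ) < d := by exact_mod_cast hd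
  have hα : 0 < α := by linarith [half_pos hd']
  set κ : (Fin d → ℤ) → ℝ := fun z => ε * ‖z‖ ^ (-α) with hκ
  have h0 : κ 0 = 0 := by
    simp only [hκ, norm_zero]
    rw [Real.zero_rpow (by linarith), mul_zero]
  have hsy : ∀ z, κ (-z) = κ z := fun z => by simp only [hκ, norm_neg]
  set δ : ℝ := (2 * α - d) / 2 with hδ
  have hδ0 : 0 < δ := by rw [hδ]; linarith
  have hs : Summable fun z : Fin d → ℤ => ‖z‖ ^ δ * κ z ^ 2 := by
    have h3 := (summable_pow hd (r := 2 * α - δ) (by rw [hδ]; linarith)).mul_left (ε ^ 2)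
    refine h3.congr fun z => ?_
    by_cases hz : z = 0
    · subst hz
      rw [h0, norm_zero, Real.zero_rpow (by rw [hδ]; linarith)]
      simp
    · have h4 : 0 < ‖z‖ := by linarith [one_le_norm hz]
      simp only [hκ]
      rw [mul_pow, ← Real.rpow_natCast (‖z‖ ^ (-α)) 2, ← Real.rpow_mul h4.le]
      have h5 : ‖z‖ ^ δ * (ε ^ 2 * ‖z‖ ^ (-α * ((2 : ℕ) : ℝ))) =
          ε ^ 2 * (‖z‖ ^ δ * ‖z‖ ^ (-α * ((2 : ℕ) : ℝ))) := by ring
      rw [h5, ← Real.rpow_add h4]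
      congr 2
      push_cast
      ring
  have hadm := Lap_adm κ h0 hsy (sq_summable_of h0 hδ0 hs)
  refine main_reg hd hadm v hv ((2 : ℝ) ^ α) ?_ ?_ hδ0 hs
  · intro z w hz hw _ h4
    have hz0 : 0 < ‖z‖ := by linarith [one_le_norm hz]
    have hw0 : 0 < ‖w‖ := by linarith [one_le_norm hw]
    simp only [hκ]
    rw [abs_mul, abs_mul, abs_of_nonneg (Real.rpow_nonneg hz0.le _),
      abs_of_nonneg (Real.rpow_nonneg hw0.le _)]
    have h5 : ‖z‖ ^ (-α) ≤ 2 ^ α * ‖w‖ ^ (-α) := by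
      have h6 : ‖z‖ ^ (-α) ≤ (‖w‖ / 2) ^ (-α) :=
        Real.rpow_le_rpow_of_nonpos (by positivity) (by linarith) (by linarith)
      refine h6.trans (le_of_eq ?_)
      rw [Real.div_rpow hw0.le (by norm_num), Real.rpow_neg (by norm_num : (0 : ℝ) ≤ 2) α,
        div_inv_eq_mul, mul_comm]
    calc |ε| * ‖z‖ ^ (-α) ≤ |ε| * (2 ^ α * ‖w‖ ^ (-α)) := by gcongr
      _ = _ := by ring
  · intro A
    have hlim : Tendsto (fun n : ℕ => |ε| * (n : ℝ) ^ ((d : ℝ) - α)) atTop atTop := by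
      refine Tendsto.const_mul_atTop (abs_pos.2 hε) ?_
      exact (tendsto_rpow_atTop (by linarith)).comp tendsto_natCast_atTop_atTop
    obtain ⟨n, hn1, hn2⟩ := ((hlim.eventually_ge_atTop A).and (eventually_ge_atTop 1)).exists
    have hn0 : (0 : ℝ) < n := by exact_mod_cast hn2
    refine ⟨fun _ => (n : ℤ), ?_, ?_⟩
    · intro h
      have := congrFun h ⟨0, hd⟩
      simp only [Pi.zero_apply] at this
      have h3 : n = 0 := by exact_mod_cast this
      omega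
    · simp only [hκ]
      rw [norm_const hd, abs_mul, abs_of_nonneg (Real.rpow_nonneg hn0.le _)]
      refine hn1.trans (le_of_eq ?_)
      rw [sub_eq_add_neg, Real.rpow_add hn0, Real.rpow_natCast]
      ring

/-- **Logarithmic correction to the critical decay**: `κ(z) = ε log(1+|z|) |z|^{-d}`. -/
theorem log_law (hd : 0 < d) (v : NNReal) (hv : v ≠ 0) (ε : ℝ) (hε : ε ≠ 0) :
    ∀ᵐ q ∂((PV d v).prod (Ps d)),
      NoSol (Lap d) (fun z => ε * Real.log (1 + ‖z‖) / ‖z‖ ^ d) q.2 q.1 := by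
  have hd' : (1 : ℝ) ≤ d := by exact_mod_cast hd
  set κ : (Fin d → ℤ) → ℝ := fun z => ε * Real.log (1 + ‖z‖) / ‖z‖ ^ d with hκ
  have h0 : κ 0 = 0 := by
    simp only [hκ, norm_zero, add_zero, Real.log_one, mul_zero, zero_div]
  have hsy : ∀ z, κ (-z) = κ z := fun z => by simp only [hκ, norm_neg]
  have hs : Summable fun z : Fin d → ℤ => ‖z‖ ^ (1 / 4 : ℝ) * κ z ^ 2 := by
    have h3 := (summable_pow hd (r := 2 * d - 1 / 2) (by linarith)).mul_left (ε ^ 2 * 256)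
    refine Summable.of_nonneg_of_le (fun z => by positivity) (fun z => ?_) h3
    by_cases hz : z = 0
    · subst hz
      rw [h0, norm_zero]
      have : (0 : ℝ) ^ (-(2 * (d : ℝ) - 1 / 2)) = 0 := Real.zero_rpow (by linarith)
      rw [this]
      simp
    · have h1 := one_le_norm hz
      have h4 : 0 < ‖z‖ := by linarith
      have hlog : Real.log (1 + ‖z‖) ≤ 16 * ‖z‖ ^ (1 / 8 : ℝ) := by
        have h5 := Real.log_le_rpow_div (x := 1 + ‖z‖) (by linarith) (ε := 1 / 8) (by norm_num)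
        have h6 : (1 + ‖z‖) ^ (1 / 8 : ℝ) ≤ (2 * ‖z‖) ^ (1 / 8 : ℝ) :=
          Real.rpow_le_rpow (by linarith) (by linarith) (by norm_num)
        have h7 : (2 * ‖z‖) ^ (1 / 8 : ℝ) = 2 ^ (1 / 8 : ℝ) * ‖z‖ ^ (1 / 8 : ℝ) :=
          Real.mul_rpow (by norm_num) h4.le
        have h8 : (2 : ℝ) ^ (1 / 8 : ℝ) ≤ 2 := by
          calc (2 : ℝ) ^ (1 / 8 : ℝ) ≤ 2 ^ (1 : ℝ) :=
                Real.rpow_le_rpow_of_exponent_le (by norm_num) (by norm_num)
            _ = 2 := Real.rpow_one 2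
        have h9 : 0 ≤ ‖z‖ ^ (1 / 8 : ℝ) := by positivity
        calc Real.log (1 + ‖z‖) ≤ (1 + ‖z‖) ^ (1 / 8 : ℝ) / (1 / 8) := h5
          _ = 8 * (1 + ‖z‖) ^ (1 / 8 : ℝ) := by ring
          _ ≤ 8 * (2 ^ (1 / 8 : ℝ) * ‖z‖ ^ (1 / 8 : ℝ)) := by rw [← h7]; linarith
          _ ≤ 8 * (2 * ‖z‖ ^ (1 / 8 : ℝ)) := by gcongr
          _ = _ := by ring
      have hlog0 : 0 ≤ Real.log (1 + ‖z‖) := Real.log_nonneg (by linarith)
      have hsq : Real.log (1 + ‖z‖) ^ 2 ≤ 256 * ‖z‖ ^ (1 / 4 : ℝ) := by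
        calc Real.log (1 + ‖z‖) ^ 2 ≤ (16 * ‖z‖ ^ (1 / 8 : ℝ)) ^ 2 :=
              pow_le_pow_left₀ hlog0 hlog 2
          _ = 256 * ((‖z‖ ^ (1 / 8 : ℝ)) ^ 2) := by ring
          _ = _ := by
              rw [← Real.rpow_natCast (‖z‖ ^ (1 / 8 : ℝ)) 2, ← Real.rpow_mul h4.le]
              norm_num
      have e1 : ‖z‖ ^ (-(2 * (d : ℝ) - 1 / 2)) =
          ‖z‖ ^ (1 / 4 : ℝ) * ‖z‖ ^ (1 / 4 : ℝ) / (‖z‖ ^ d) ^ 2 := by
        rw [← Real.rpow_add h4, ← pow_mul, ← Real.rpow_natCast ‖z‖ (d * 2), ← Real.rpow_sub h4]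
        congr 1
        push_cast
        ring
      simp only [hκ]
      rw [e1, div_pow, mul_pow]
      have h10 : 0 < (‖z‖ ^ d) ^ 2 := by positivity
      have h11 : 0 ≤ ‖z‖ ^ (1 / 4 : ℝ) := by positivity
      calc ‖z‖ ^ (1 / 4 : ℝ) * (ε ^ 2 * Real.log (1 + ‖z‖) ^ 2 / (‖z‖ ^ d) ^ 2)
          ≤ ‖z‖ ^ (1 / 4 : ℝ) * (ε ^ 2 * (256 * ‖z‖ ^ (1 / 4 : ℝ)) / (‖z‖ ^ d) ^ 2) := by gcongr
        _ = _ := by ring
  have hadm := Lap_adm κ h0 hsy (sq_summable_of h0 (by norm_num) hs)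
  refine main_reg hd hadm v hv (2 * 2 ^ d) ?_ ?_ (by norm_num) hs
  · intro z w hz hw h3 h4
    have hz1 := one_le_norm hz
    have hw1 := one_le_norm hw
    have hz0 : 0 < ‖z‖ := by linarith
    have hw0 : 0 < ‖w‖ := by linarith
    have hlz : 0 ≤ Real.log (1 + ‖z‖) := Real.log_nonneg (by linarith)
    have hlw : 0 ≤ Real.log (1 + ‖w‖) := Real.log_nonneg (by linarith)
    simp only [hκ]
    rw [abs_div, abs_div, abs_mul, abs_mul, abs_of_nonneg hlz, abs_of_nonneg hlw,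
      abs_of_nonneg (pow_nonneg hz0.le d), abs_of_nonneg (pow_nonneg hw0.le d)]
    have h5 : Real.log (1 + ‖z‖) ≤ 2 * Real.log (1 + ‖w‖) := by
      have h6 : Real.log ((1 + ‖w‖) ^ 2) = 2 * Real.log (1 + ‖w‖) := by
        rw [Real.log_pow]
        push_cast
        ring
      rw [← h6]
      refine Real.log_le_log (by linarith) ?_
      nlinarith
    have h6 : ‖w‖ ^ d ≤ 2 ^ d * ‖z‖ ^ d := by
      rw [← mul_pow]
      exact pow_le_pow_left₀ hw0.le h4 d
    rw [div_le_iff₀ (by positivity)]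
    have h7 : 2 * 2 ^ d * (|ε| * Real.log (1 + ‖w‖) / ‖w‖ ^ d) * ‖z‖ ^ d =
        2 * |ε| * Real.log (1 + ‖w‖) * ((2 ^ d * ‖z‖ ^ d) / ‖w‖ ^ d) := by ring
    rw [h7]
    have h8 : 1 ≤ (2 ^ d * ‖z‖ ^ d) / ‖w‖ ^ d := by
      rw [le_div_iff₀ (by positivity), one_mul]
      exact h6
    have h9 : 0 ≤ 2 * |ε| * Real.log (1 + ‖w‖) := by positivity
    calc |ε| * Real.log (1 + ‖z‖) ≤ |ε| * (2 * Real.log (1 + ‖w‖)) := by gcongr
      _ = 2 * |ε| * Real.log (1 + ‖w‖) * 1 := by ring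
      _ ≤ _ := mul_le_mul_of_nonneg_left h8 h9
  · intro A
    have hlim : Tendsto (fun n : ℕ => |ε| * Real.log (1 + (n : ℝ))) atTop atTop := by
      refine Tendsto.const_mul_atTop (abs_pos.2 hε) ?_
      exact Real.tendsto_log_atTop.comp (tendsto_atTop_add_const_left _ 1
        tendsto_natCast_atTop_atTop)
    obtain ⟨n, hn1, hn2⟩ := ((hlim.eventually_ge_atTop A).and (eventually_ge_atTop 1)).exists
    have hn0 : (0 : ℝ) < n := by exact_mod_cast hn2
    refine ⟨fun _ => (n : ℤ), ?_, ?_⟩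
    · intro h
      have := congrFun h ⟨0, hd⟩
      simp only [Pi.zero_apply] at this
      have h3 : n = 0 := by exact_mod_cast this
      omega
    · simp only [hκ]
      have hln : 0 ≤ Real.log (1 + (n : ℝ)) := Real.log_nonneg (by linarith)
      rw [norm_const hd, abs_div, abs_mul, abs_of_nonneg hln, abs_of_nonneg (pow_nonneg hn0.le d)]
      refine hn1.trans (le_of_eq ?_)
      field_simp

end Pool.Agent.TH980.PL
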