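import Pool.Agent.H10R2.PL.AsmD
import Pool.Agent.H10R2.PL.SWA

/-!
Almost every energy and almost every configuration: arbitrarily good trial functions exist.
(helper980; final assembly of the unfinished starting library `H10R2.PL`.)
-/

set_option autoImplicit false

namespace Pool.Agent.TH980.PL

open MeasureTheory ProbabilityTheory Matrix Set Filter H10PL

variable {d : ℕ} {T0 : (Fin d → ℤ) → (Fin d → ℤ) → ℝ} {κ : (Fin d → ℤ) → ℝ} {ρ0 b : ℝ}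

/-- there are finite sets of jumps `z` on which `|κ|` is almost constant and whose total hopping
amplitude is arbitrarily large -/
def Shells (κ : (Fin d → ℤ) → ℝ) : Prop :=
  ∃ B : ℝ, ∀ A : ℝ, ∃ (S : Finset (Fin d → ℤ)) (β : ℝ), (0 : Fin d → ℤ) ∉ S ∧ S.Nonempty ∧ 0 < β ∧
    (∀ z ∈ S, β ≤ |κ z| ∧ |κ z| ≤ B * β) ∧ A ≤ β * S.card

theorem ar_W {C K δ W : ℝ} (hδ : 0 < δ) (hW0 : 0 < W) (h1 : 36 * |C| / δ ≤ W) :
    9 * C / W ≤ δ / 4 := by
  rw [div_le_iff₀ hδ] at h1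
  rw [div_le_iff₀ hW0]
  have h2 := le_abs_self C
  have e : δ / 4 * W = W * δ / 4 := by ring
  rw [e]
  linarith

theorem ar_thr {M' D U δ g β N : ℝ} (hδ : 0 < δ) (hg : 0 < g) (hU : 0 < U) (hN : 0 < N)
    (hsq : 64 * M' * D * U ^ 2 / (δ * g * Real.pi) ≤ (β * N) ^ 2) :
    4 * M' * (4 * D / (δ * N)) ≤ β ^ 2 * (g * Real.pi * N / 2) / (2 * U ^ 2) := by
  have hpi := Real.pi_pos
  rw [div_le_iff₀ (by positivity)] at hsq
  rw [le_div_iff₀ (by positivity)]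
  have e1 : 4 * M' * (4 * D / (δ * N)) * (2 * U ^ 2) =
      (32 * M' * D * U ^ 2) / (δ * N) := by
    field_simp
    ring
  rw [e1, div_le_iff₀ (by positivity)]
  have e2 : β ^ 2 * (g * Real.pi * N / 2) * (δ * N) = (β * N) ^ 2 * (δ * g * Real.pi) / 2 := by
    ring
  rw [e2]
  linarith

theorem ar_bd2 {B K g N δ : ℝ} (hg : 0 < g) (hN : 0 < N) (hδ : 0 < δ) (hK : 0 < K) :
    (16 + 64 * B ^ 2) * K / (g * Real.pi * N *
      (4 * ((16 + 64 * B ^ 2) * K / (g * Real.pi)) / (δ * N))) ≤ δ / 4 := by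
  have hpi := Real.pi_pos
  apply le_of_eq
  field_simp

theorem ar_r {ρ T η m r : ℝ} (hη : 0 < η) (hm : 0 < m) (hr : 0 < r)
    (h1 : 2 * ρ * T / (η ^ 2 * m) ≤ r) : (ρ / r) * T * (1 / η) ≤ η * m / 2 := by
  rw [div_le_iff₀ (by positivity)] at h1
  have e1 : (ρ / r) * T * (1 / η) = (ρ * T) / (r * η) := by field_simp
  rw [e1, div_le_iff₀ (by positivity)]
  have e2 : η * m / 2 * (r * η) = r * (η ^ 2 * m) / 2 := by ring
  rw [e2]
  linarith

theorem ar_tl {tl η c K δ : ℝ} (hη : 0 < η) (hc : 0 < c) (hK : 0 < K)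
    (h1 : tl ≤ δ * η ^ 2 * c / (8 * K)) : 2 * K * (tl * (1 / η ^ 2) / c) ≤ δ / 4 := by
  rw [le_div_iff₀ (by positivity)] at h1
  have e1 : 2 * K * (tl * (1 / η ^ 2) / c) = (2 * K * tl) / (η ^ 2 * c) := by field_simp
  rw [e1, div_le_iff₀ (by positivity)]
  have e2 : δ / 4 * (η ^ 2 * c) = δ * η ^ 2 * c / 4 := by ring
  rw [e2]
  linarith

theorem ar_b1 {K δ : ℝ} (hK : 0 < K) : (K - -K) * (δ / (8 * K)) = δ / 4 := by
  field_simp
  ring

theorem inf_small (h : Adm T0 κ ρ0 b) (v : NNReal) (hv : v ≠ 0) (hS : Shells κ)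
    (x : Fin d → ℤ) {K : ℝ} (hK : 0 < K) (M : ℝ) {δ : ℝ} (hδ : 0 < δ) :
    ((volume.restrict (Icc (-K) K)).prod ((PV d v).prod (Ps d)))
      {p | ¬ InfN T0 κ p.2.2 p.2.1 p.1 x M} ≤ ENNReal.ofReal δ := by
  obtain ⟨B, hS⟩ := hS
  obtain ⟨k, hk, hkb⟩ := κ_bdd h
  set C := Ck K (aC b κ) with hC
  set W : ℝ := max (2 * (K + 1)) (36 * |C| / δ) with hW
  have hW1 : 2 * (K + 1) ≤ W := le_max_left _ _
  have hW0 : 0 < W := lt_of_lt_of_le (by linarith) hW1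
  have hWC : 9 * C / W ≤ δ / 4 := ar_W (K := K) hδ hW0 (le_max_right _ _)
  set g := gaussianPDFReal 0 v W with hg
  have hg0 : 0 < g := gaussianPDFReal_pos 0 v W hv
  obtain ⟨W2, hW2, hW2t⟩ := V_tail (d := d) v x (δ := δ / (8 * K)) (by positivity)
  set D := (16 + 64 * B ^ 2) * K / (g * Real.pi) with hD
  have hD0 : 0 < D := by positivity
  set M' : ℝ := max M 1 with hM'
  have hM'0 : 0 < M' := lt_of_lt_of_le one_pos (le_max_right _ _)
  set A1 := 64 * M' * D * (W2 + 8 * W) ^ 2 / (δ * g * Real.pi) with hA1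
  have hA10 : 0 ≤ A1 := by positivity
  obtain ⟨S, β, h0S, hSn, hβ, hκ, hA⟩ := hS (max (max A1 1) (k * (4 * D / δ)))
  set N : ℝ := (S.card : ℝ) with hN
  have hN0 : 0 < N := by
    have := hSn.card_pos
    rw [hN]
    exact_mod_cast this
  have hAa : A1 ≤ β * N := le_trans (le_trans (le_max_left _ _) (le_max_left _ _)) hA
  have hAb : 1 ≤ β * N := le_trans (le_trans (le_max_right _ _) (le_max_left _ _)) hA
  have hAc : k * (4 * D / δ) ≤ β * N := le_trans (le_max_right _ _) hA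
  have hβk : β ≤ k := by
    obtain ⟨z, hz⟩ := hSn
    exact le_trans (hκ z hz).1 (hkb z)
  have hNl : 4 * D / δ ≤ N := by
    have h1 : k * (4 * D / δ) ≤ k * N :=
      le_trans hAc (mul_le_mul_of_nonneg_right hβk hN0.le)
    exact le_of_mul_le_mul_left h1 hk
  set η : ℝ := 4 * D / (δ * N) with hη
  have hη0 : 0 < η := by positivity
  have hη1 : η ≤ 1 := by
    rw [hη, div_le_one (by positivity)]
    rw [div_le_iff₀ hδ] at hNl
    linarith
  set thr := β ^ 2 * (g * Real.pi * N / 2) / (2 * (W2 + 8 * W) ^ 2) with hthr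
  have hWW : 0 < W2 + 8 * W := by positivity
  have hthr1 : 4 * M' * η ≤ thr := by
    have hsq : A1 ≤ (β * N) ^ 2 := by
      calc A1 ≤ β * N := hAa
        _ = β * N * 1 := by ring
        _ ≤ β * N * (β * N) := mul_le_mul_of_nonneg_left hAb (by positivity)
        _ = (β * N) ^ 2 := by ring
    exact ar_thr hδ hg0 hWW hN0 hsq
  have hbd2 : (16 + 64 * B ^ 2) * K / (g * Real.pi * N * η) ≤ δ / 4 := ar_bd2 hg0 hN0 hδ hK
  -- the long range part
  set c : ℝ := (η * Real.sqrt M' / 2) ^ 2 with hc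
  have hc0 : 0 < c := by
    have : 0 < Real.sqrt M' := Real.sqrt_pos.2 hM'0
    positivity
  obtain ⟨ρ1, hρ1⟩ := tail_small h (δ := δ * η ^ 2 * c / (8 * K)) (by positivity)
  set ρ : ℝ := max (max ρ0 0) (max ρ1 (∑ z ∈ S, ‖z‖)) with hρ
  have hρa : ρ0 ≤ ρ := le_trans (le_max_left _ _) (le_max_left _ _)
  have hρb : 0 ≤ ρ := le_trans (le_max_right _ _) (le_max_left _ _)
  have hρc : ρ1 ≤ ρ := le_trans (le_max_left _ _) (le_max_right _ _)
  have hρd : ∀ z ∈ S, ‖z‖ ≤ ρ := fun z hz =>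
    le_trans (Finset.single_le_sum (f := fun z => ‖z‖) (fun z _ => norm_nonneg z) hz)
      (le_trans (le_max_right _ _) (le_max_right _ _))
  obtain ⟨T, hT0, hT⟩ := row_abs h ρ
  have hsM : 0 < Real.sqrt M' := Real.sqrt_pos.2 hM'0
  set r : ℝ := max 1 (2 * ρ * T / (η ^ 2 * Real.sqrt M')) with hr
  have hr0 : 0 < r := lt_of_lt_of_le one_pos (le_max_left _ _)
  have hr1 : (ρ / r) * T * (1 / η) ≤ η * Real.sqrt M' / 2 := ar_r hη0 hsM hr0 (le_max_right _ _)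
  set Λ : Finset (Fin d → ℤ) := (ball_finite x (r + ρ)).toFinset with hΛ
  have hΛm : ∀ y, ‖y - x‖ ≤ r + ρ → y ∈ Λ := by
    intro y hy
    rw [hΛ, Set.Finite.mem_toFinset]
    exact hy
  have hx : x ∈ Λ := hΛm x (by simp; positivity)
  have hSΛ : ∀ z ∈ S, x - z ∈ Λ := by
    intro z hz
    refine hΛm _ ?_
    have : x - z - x = -z := by abel
    rw [this, norm_neg]
    have := hρd z hz
    linarith
  -- the three bad sets
  set μ := ((volume.restrict (Icc (-K) K)).prod ((PV d v).prod (Ps d))) with hμ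
  have b1 : μ {p | W2 < |p.2.1 x|} ≤ ENNReal.ofReal (δ / 4) := by
    have hset : {p : ℝ × (((Fin d → ℤ) → ℝ) × (Sym2 (Fin d → ℤ) → Bool)) | W2 < |p.2.1 x|} =
        (univ : Set ℝ) ×ˢ ({V : (Fin d → ℤ) → ℝ | W2 < |V x|} ×ˢ
          (univ : Set (Sym2 (Fin d → ℤ) → Bool))) := by
      ext p
      simp
    rw [hset, hμ, Measure.prod_prod, Measure.prod_prod, measure_univ (μ := Ps d), mul_one,
      Measure.restrict_apply_univ, Real.volume_Icc]
    calc ENNReal.ofReal (K - -K) * (PV d v) {V | W2 < |V x|}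
        ≤ ENNReal.ofReal (K - -K) * ENNReal.ofReal (δ / (8 * K)) := by gcongr
      _ = ENNReal.ofReal (δ / 4) := by
          rw [← ENNReal.ofReal_mul (by linarith), ar_b1 hK]
  have b2 := fv_lattice h v hv Λ S x hx h0S hρd hSΛ hSn hβ hκ (K := K) (W := W) (W2 := W2)
    (η := η) hK hW1 hη0 hη1 hW2
  have b3 := long_lattice h v (ρ := ρ) (η := η) (r := r) hρa hη0 hr0 Λ x hx (K := K) (c := c) hK hc0
  have b2' : μ {p | |p.2.1 x| ≤ W2 ∧
        Pm (Am T0 κ ρ Λ p.2.2) (fun i : Λ => p.2.1 i) p.1 η ⟨x, hx⟩ ⟨x, hx⟩ < thr} ≤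
      ENNReal.ofReal (δ / 2) := by
    refine le_trans b2 (ENNReal.ofReal_le_ofReal ?_)
    have : 9 * C / W + (16 + 64 * B ^ 2) * K / (g * Real.pi * N * η) ≤ δ / 4 + δ / 4 :=
      add_le_add hWC hbd2
    linarith
  have b3' : μ {p | ¬ (∑' y, (∑ w ∈ Λ, (Kf T0 κ p.2.2 y w - Kr T0 κ ρ p.2.2 y w) *
        ff T0 κ ρ η r Λ x hx p.2.2 p.2.1 p.1 w) ^ 2) ≤ c} ≤ ENNReal.ofReal (δ / 4) := by
    refine le_trans b3 (ENNReal.ofReal_le_ofReal ?_)
    exact ar_tl hη0 hc0 hK (hρ1 ρ hρc)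
  have hsub : {p : ℝ × (((Fin d → ℤ) → ℝ) × (Sym2 (Fin d → ℤ) → Bool)) |
      ¬ InfN T0 κ p.2.2 p.2.1 p.1 x M} ⊆ {p | W2 < |p.2.1 x|} ∪ ({p | |p.2.1 x| ≤ W2 ∧
        Pm (Am T0 κ ρ Λ p.2.2) (fun i : Λ => p.2.1 i) p.1 η ⟨x, hx⟩ ⟨x, hx⟩ < thr} ∪
      {p | ¬ (∑' y, (∑ w ∈ Λ, (Kf T0 κ p.2.2 y w - Kr T0 κ ρ p.2.2 y w) *
        ff T0 κ ρ η r Λ x hx p.2.2 p.2.1 p.1 w) ^ 2) ≤ c}) := by
    intro p hp
    by_contra hcon
    simp only [mem_union, mem_ofPred_eq, not_or, not_lt, not_and, not_not] at hcon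
    obtain ⟨q1, q2, q3⟩ := hcon
    apply hp
    exact infN_of h p.2.2 p.2.1 p.1 x (ρ := ρ) (r := r) (T := T) (η := η) (M := M) (M' := M')
      hρa hρb hr0 hη0 Λ hΛm hx hT0 (fun y => hT Λ p.2.2 y) (le_max_left _ _) hM'0
      (le_trans hthr1 (q2 q1)) hr1 q3
  calc μ {p | ¬ InfN T0 κ p.2.2 p.2.1 p.1 x M}
      ≤ μ ({p | W2 < |p.2.1 x|} ∪ ({p | |p.2.1 x| ≤ W2 ∧
        Pm (Am T0 κ ρ Λ p.2.2) (fun i : Λ => p.2.1 i) p.1 η ⟨x, hx⟩ ⟨x, hx⟩ < thr} ∪
      {p | ¬ (∑' y, (∑ w ∈ Λ, (Kf T0 κ p.2.2 y w - Kr T0 κ ρ p.2.2 y w) *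
        ff T0 κ ρ η r Λ x hx p.2.2 p.2.1 p.1 w) ^ 2) ≤ c})) := measure_mono hsub
    _ ≤ ENNReal.ofReal (δ / 4) + (ENNReal.ofReal (δ / 2) + ENNReal.ofReal (δ / 4)) := by
        refine le_trans (measure_union_le _ _) (add_le_add b1 ?_)
        exact le_trans (measure_union_le _ _) (add_le_add b2' b3')
    _ = ENNReal.ofReal δ := by
        rw [← ENNReal.ofReal_add (by positivity) (by positivity),
          ← ENNReal.ofReal_add (by positivity) (by positivity)]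
        congr 1
        ring

/-- for almost every energy and almost every configuration there are arbitrarily good trial
functions at every site -/
theorem inf_ae (h : Adm T0 κ ρ0 b) (v : NNReal) (hv : v ≠ 0) (hS : Shells κ) (x : Fin d → ℤ) :
    ∀ᵐ p : ℝ × (((Fin d → ℤ) → ℝ) × (Sym2 (Fin d → ℤ) → Bool))
      ∂((volume : Measure ℝ).prod ((PV d v).prod (Ps d))), ∀ M : ℕ,
      InfN T0 κ p.2.2 p.2.1 p.1 x M := by
  rw [ae_all_iff]
  intro M
  rw [ae_iff]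
  set Z := {p : ℝ × (((Fin d → ℤ) → ℝ) × (Sym2 (Fin d → ℤ) → Bool)) |
    ¬ InfN T0 κ p.2.2 p.2.1 p.1 x M} with hZ
  have hz : ∀ n : ℕ, ((volume : Measure ℝ).prod ((PV d v).prod (Ps d)))
      (Z ∩ (Icc (-((n : ℝ) + 1)) ((n : ℝ) + 1) ×ˢ univ)) = 0 := by
    intro n
    have hmeas : MeasurableSet ((Icc (-((n : ℝ) + 1)) ((n : ℝ) + 1)) ×ˢ
        (univ : Set (((Fin d → ℤ) → ℝ) × (Sym2 (Fin d → ℤ) → Bool)))) :=
      measurableSet_Icc.prod MeasurableSet.univ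
    rw [← Measure.restrict_apply' hmeas, ← Measure.prod_restrict, Measure.restrict_univ]
    refine le_antisymm ?_ zero_le
    refine le_of_forall_pos_le_add fun ε hε => ?_
    rw [zero_add]
    by_cases hεt : ε = ⊤
    · rw [hεt]; exact le_top
    have hε' : 0 < ε.toReal := ENNReal.toReal_pos hε.ne' hεt
    have := inf_small h v hv hS x (K := (n : ℝ) + 1) (by positivity) (M : ℝ) hε'
    rwa [ENNReal.ofReal_toReal hεt] at this
  have hcov : Z ⊆ ⋃ n : ℕ, Z ∩ (Icc (-((n : ℝ) + 1)) ((n : ℝ) + 1) ×ˢ univ) := by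
    intro p hp
    obtain ⟨n, hn⟩ := exists_nat_ge |p.1|
    refine mem_iUnion.2 ⟨n, hp, ?_, mem_univ _⟩
    have h1 := abs_le.1 hn
    constructor <;> linarith
  refine measure_mono_null hcov (measure_iUnion_null hz)

end Pool.Agent.TH980.PL
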