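import Mathlib

/-!
The matrix Khintchine inequality for traces of even powers (elementary proof).
-/

set_option autoImplicit false

namespace Pool.Agent.TH980.PL

open Matrix Finset

variable {n : Type*} [Fintype n] [DecidableEq n]

theorem pow_conj (X U D : Matrix n n ℂ) (h1 : Uᴴ * U = 1) (h2 : U * Uᴴ = 1)
    (h3 : X = U * D * Uᴴ) (q : ℕ) : X ^ q = U * D ^ q * Uᴴ := by
  induction q with
  | zero => rw [pow_zero, pow_zero, mul_one, h2]
  | succ q ih =>
    rw [pow_succ, ih, h3]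
    calc U * D ^ q * Uᴴ * (U * D * Uᴴ)
        = U * D ^ q * (Uᴴ * U) * D * Uᴴ := by
          simp only [Matrix.mul_assoc]
      _ = U * (D ^ q * D) * Uᴴ := by
          rw [h1, Matrix.mul_one]
          simp only [Matrix.mul_assoc]
      _ = U * D ^ (q + 1) * Uᴴ := by
          rw [pow_succ]

/-- spectral decomposition of the powers of a Hermitian matrix -/
theorem herm_spec (X : Matrix n n ℂ) (hX : X.IsHermitian) :
    ∃ (U : Matrix n n ℂ) (l : n → ℝ), Uᴴ * U = 1 ∧ U * Uᴴ = 1 ∧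
      ∀ q : ℕ, X ^ q = U * diagonal (fun i => ((l i : ℂ)) ^ q) * Uᴴ := by
  set U : Matrix n n ℂ := (hX.eigenvectorUnitary : Matrix n n ℂ) with hU
  have h1 : Uᴴ * U = 1 := Unitary.coe_star_mul_self hX.eigenvectorUnitary
  have h2 : U * Uᴴ = 1 := Unitary.coe_mul_star_self hX.eigenvectorUnitary
  refine ⟨U, hX.eigenvalues, h1, h2, fun q => ?_⟩
  have h3 : X = U * diagonal (fun i => ((hX.eigenvalues i : ℂ))) * Uᴴ := by
    have := hX.spectral_theorem
    rw [Unitary.conjStarAlgAut_apply] at this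
    exact this
  have h4 := pow_conj X U _ h1 h2 h3 q
  rw [h4, diagonal_pow]
  rfl

/-- joint spectral form of `tr (A X^q A Y^r)` -/
theorem tr_form (A X Y : Matrix n n ℂ) (hA : A.IsHermitian) (hX : X.IsHermitian)
    (hY : Y.IsHermitian) : ∃ (c : n → n → ℝ) (l m : n → ℝ), (∀ i k, 0 ≤ c i k) ∧
      ∀ q r : ℕ, (A * X ^ q * A * Y ^ r).trace =
        ((∑ i, ∑ k, c i k * (l i ^ q * m k ^ r) : ℝ) : ℂ) := by
  obtain ⟨U, l, hU1, hU2, hXq⟩ := herm_spec X hX
  obtain ⟨V, m, hV1, hV2, hYr⟩ := herm_spec Y hY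
  set C : Matrix n n ℂ := Uᴴ * A * V with hC
  refine ⟨fun i k => Complex.normSq (C i k), l, m, fun i k => Complex.normSq_nonneg _, fun q r => ?_⟩
  have hCH : Cᴴ = Vᴴ * A * U := by
    rw [hC, conjTranspose_mul, conjTranspose_mul, conjTranspose_conjTranspose, hA.eq,
      Matrix.mul_assoc]
  have e1 : (A * X ^ q * A * Y ^ r).trace =
      (Cᴴ * diagonal (fun i => ((l i : ℂ)) ^ q) * C * diagonal (fun i => ((m i : ℂ)) ^ r)).trace := by
    rw [hXq, hYr, hCH, hC]
    have : A * (U * diagonal (fun i => ((l i : ℂ)) ^ q) * Uᴴ) * A *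
        (V * diagonal (fun i => ((m i : ℂ)) ^ r) * Vᴴ) =
        (A * U * diagonal (fun i => ((l i : ℂ)) ^ q) * (Uᴴ * A * V) *
          diagonal (fun i => ((m i : ℂ)) ^ r)) * Vᴴ := by
      simp only [Matrix.mul_assoc]
    rw [this, Matrix.trace_mul_comm]
    simp only [Matrix.mul_assoc]
  rw [e1]
  have e2 : ∀ k, (Cᴴ * diagonal (fun i => ((l i : ℂ)) ^ q) * C *
      diagonal (fun i => ((m i : ℂ)) ^ r)) k k =
      ∑ i, ((Complex.normSq (C i k) * (l i ^ q * m k ^ r) : ℝ) : ℂ) := by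
    intro k
    rw [Matrix.mul_diagonal, Matrix.mul_apply, Finset.sum_mul]
    refine Finset.sum_congr rfl fun i _ => ?_
    rw [Matrix.mul_diagonal, Matrix.conjTranspose_apply]
    push_cast
    rw [Complex.normSq_eq_conj_mul_self]
    simp only [RCLike.star_def]
    ring
  simp only [Matrix.trace, Matrix.diag]
  rw [Finset.sum_congr rfl fun k _ => e2 k, Finset.sum_comm]
  push_cast
  rfl

/-- the scalar inequality -/
theorem pow_mix (x y : ℝ) (p q : ℕ) (hq : q ≤ 2 * p) :
    x ^ q * y ^ (2 * p - q) + x ^ (2 * p - q) * y ^ q ≤ x ^ (2 * p) + y ^ (2 * p) := by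
  have key : ∀ a b : ℝ, 0 ≤ a → 0 ≤ b → ∀ q r : ℕ, a ^ q * b ^ r + a ^ r * b ^ q ≤
      a ^ (q + r) + b ^ (q + r) := by
    intro a b ha hb q r
    have h1 : 0 ≤ (a ^ q - b ^ q) * (a ^ r - b ^ r) := by
      rcases le_total a b with h | h
      · have h2 := pow_le_pow_left₀ ha h q
        have h3 := pow_le_pow_left₀ ha h r
        nlinarith
      · have h2 := pow_le_pow_left₀ hb h q
        have h3 := pow_le_pow_left₀ hb h r
        nlinarith
    rw [pow_add, pow_add]
    nlinarith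
  have h1 := key |x| |y| (abs_nonneg _) (abs_nonneg _) q (2 * p - q)
  have h2 : q + (2 * p - q) = 2 * p := by omega
  rw [h2] at h1
  have h3 : |x| ^ (2 * p) = x ^ (2 * p) := by
    rw [pow_mul, sq_abs, ← pow_mul]
  have h4 : |y| ^ (2 * p) = y ^ (2 * p) := by
    rw [pow_mul, sq_abs, ← pow_mul]
  rw [h3, h4] at h1
  refine le_trans ?_ h1
  have h5 : x ^ q * y ^ (2 * p - q) ≤ |x| ^ q * |y| ^ (2 * p - q) := by
    refine (le_abs_self _).trans (le_of_eq ?_)
    rw [abs_mul, abs_pow, abs_pow]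
  have h6 : x ^ (2 * p - q) * y ^ q ≤ |x| ^ (2 * p - q) * |y| ^ q := by
    refine (le_abs_self _).trans (le_of_eq ?_)
    rw [abs_mul, abs_pow, abs_pow]
  linarith

/-- the key trace inequality -/
theorem tr_mix (A X Y : Matrix n n ℂ) (hA : A.IsHermitian) (hX : X.IsHermitian)
    (hY : Y.IsHermitian) (p : ℕ) :
    (∑ q ∈ range (2 * p + 1), (A * X ^ q * A * Y ^ (2 * p - q)).trace.re) ≤
      (2 * p + 1) / 2 * ((A * X ^ (2 * p) * A).trace.re + (A * A * Y ^ (2 * p)).trace.re) := by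
  obtain ⟨c, l, m, hc, hf⟩ := tr_form A X Y hA hX hY
  have h1 : ∀ q r : ℕ, (A * X ^ q * A * Y ^ r).trace.re =
      ∑ i, ∑ k, c i k * (l i ^ q * m k ^ r) := by
    intro q r
    rw [hf q r, Complex.ofReal_re]
  have h2 : (A * X ^ (2 * p) * A).trace.re = ∑ i, ∑ k, c i k * l i ^ (2 * p) := by
    have := h1 (2 * p) 0
    simpa using this
  have h3 : (A * A * Y ^ (2 * p)).trace.re = ∑ i, ∑ k, c i k * m k ^ (2 * p) := by
    have := h1 0 (2 * p)
    simpa using this
  set S := ∑ q ∈ range (2 * p + 1), (A * X ^ q * A * Y ^ (2 * p - q)).trace.re with hS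
  have h4 : S = ∑ q ∈ range (2 * p + 1), (A * X ^ (2 * p - q) * A * Y ^ q).trace.re := by
    rw [hS, ← Finset.sum_range_reflect]
    refine Finset.sum_congr rfl fun q hq => ?_
    rw [Finset.mem_range] at hq
    have e1 : 2 * p + 1 - 1 - q = 2 * p - q := by omega
    have e2 : 2 * p - (2 * p - q) = q := by omega
    rw [e1, e2]
  have h5 : S + S ≤ ∑ q ∈ range (2 * p + 1), ((A * X ^ (2 * p) * A).trace.re +
      (A * A * Y ^ (2 * p)).trace.re) := by
    conv_lhs => rw [h4]
    rw [← h4]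
    nth_rw 2 [h4]
    rw [hS, ← Finset.sum_add_distrib]
    refine Finset.sum_le_sum fun q hq => ?_
    rw [Finset.mem_range] at hq
    rw [h1, h1, h2, h3, ← Finset.sum_add_distrib, ← Finset.sum_add_distrib]
    refine Finset.sum_le_sum fun i _ => ?_
    rw [← Finset.sum_add_distrib, ← Finset.sum_add_distrib]
    refine Finset.sum_le_sum fun k _ => ?_
    have h6 := mul_le_mul_of_nonneg_left (pow_mix (l i) (m k) p q (by omega)) (hc i k)
    linarith
  rw [Finset.sum_const, Finset.card_range, nsmul_eq_mul] at h5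
  push_cast at h5
  linarith

end Pool.Agent.TH980.PL
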