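import Pool.Agent.TH980.PL.Khin
import Pool.Agent.H10R2.PL.Prob
import Pool.Agent.H10R2.PL.SWA

/-!
The matrix Khintchine inequality: expectation over the signs.
-/

set_option autoImplicit false

namespace Pool.Agent.TH980.PL

open Matrix Finset MeasureTheory H10PL

variable {n : Type*} [Fintype n] [DecidableEq n] {d : ℕ}

theorem int_cont (g : (Sym2 (Fin d → ℤ) → Bool) → ℝ) (hg : Continuous g) :
    Integrable g (Ps d) :=
  hg.integrable_of_hasCompactSupport (HasCompactSupport.of_compactSpace g)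

/-- the random matrix -/
noncomputable def XX (J : Finset (Sym2 (Fin d → ℤ))) (A : Sym2 (Fin d → ℤ) → Matrix n n ℂ)
    (s : Sym2 (Fin d → ℤ) → Bool) : Matrix n n ℂ :=
  ∑ e ∈ J, ((sg (s e) : ℝ) : ℂ) • A e

theorem XX_herm (J : Finset (Sym2 (Fin d → ℤ))) (A : Sym2 (Fin d → ℤ) → Matrix n n ℂ)
    (hA : ∀ e, (A e).IsHermitian) (s : Sym2 (Fin d → ℤ) → Bool) : (XX J A s).IsHermitian := by
  unfold XX Matrix.IsHermitian
  rw [Matrix.conjTranspose_sum]
  refine Finset.sum_congr rfl fun e _ => ?_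
  rw [Matrix.conjTranspose_smul, (hA e).eq]
  simp

theorem XX_cont (J : Finset (Sym2 (Fin d → ℤ))) (A : Sym2 (Fin d → ℤ) → Matrix n n ℂ) :
    Continuous (XX J A) := by
  unfold XX
  refine continuous_finsetSum _ fun e _ => ?_
  have h1 : Continuous fun s : Sym2 (Fin d → ℤ) → Bool => sg (s e) :=
    (continuous_of_discreteTopology (f := sg)).comp (continuous_apply e)
  exact (Complex.continuous_ofReal.comp h1).smul continuous_const

theorem geom_tel (X Y : Matrix n n ℂ) (m : ℕ) :
    X ^ m - Y ^ m = ∑ q ∈ range m, X ^ q * (X - Y) * Y ^ (m - 1 - q) := by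
  induction m with
  | zero => simp
  | succ m ih =>
    rw [Finset.sum_range_succ]
    have h1 : ∑ q ∈ range m, X ^ q * (X - Y) * Y ^ (m + 1 - 1 - q) =
        (∑ q ∈ range m, X ^ q * (X - Y) * Y ^ (m - 1 - q)) * Y := by
      rw [Finset.sum_mul]
      refine Finset.sum_congr rfl fun q hq => ?_
      rw [Finset.mem_range] at hq
      have h2 : m + 1 - 1 - q = (m - 1 - q) + 1 := by omega
      rw [h2, pow_succ]
      simp only [Matrix.mul_assoc]
    rw [h1, ← ih]
    have h3 : m + 1 - 1 - m = 0 := by omega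
    rw [h3, pow_zero, Matrix.mul_one, pow_succ, pow_succ, Matrix.sub_mul, Matrix.mul_sub]
    abel

theorem XX_flip (J : Finset (Sym2 (Fin d → ℤ))) (A : Sym2 (Fin d → ℤ) → Matrix n n ℂ)
    (s : Sym2 (Fin d → ℤ) → Bool) (e : Sym2 (Fin d → ℤ)) (he : e ∈ J) [DecidablePred (· ∈ ({e} : Set (Sym2 (Fin d → ℤ))))] :
    XX J A s - XX J A (flipS {e} s) = ((2 * sg (s e) : ℝ) : ℂ) • A e := by
  classical
  unfold XX
  rw [← Finset.sum_sub_distrib, Finset.sum_eq_single_of_mem e he]
  · have h1 : sg (flipS {e} s e) = - sg (s e) := by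
      unfold flipS sg
      simp
      cases s e <;> simp
    rw [h1, ← sub_smul]
    congr 1
    push_cast
    ring
  · intro e' _ hne
    have h1 : flipS {e} s e' = s e' := by
      unfold flipS
      rw [if_neg]
      simpa using hne
    rw [h1, sub_self]

/-- the recursion for the moments -/
theorem khin_step0 (J : Finset (Sym2 (Fin d → ℤ))) (A : Sym2 (Fin d → ℤ) → Matrix n n ℂ)
    (hA : ∀ e, (A e).IsHermitian) (Dg : n → ℝ)
    (hD : ∑ e ∈ J, A e * A e = diagonal (fun i => ((Dg i : ℝ) : ℂ))) (p : ℕ) :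
    ∫ s, (XX J A s ^ (2 * p + 2)).trace.re ∂(Ps d) ≤ (2 * p + 1) *
      ∫ s, (diagonal (fun i => ((Dg i : ℝ) : ℂ)) * XX J A s ^ (2 * p)).trace.re ∂(Ps d) := by
  classical
  have hXc := XX_cont J A
  have ctr : ∀ f : (Sym2 (Fin d → ℤ) → Bool) → Matrix n n ℂ, Continuous f →
      Continuous fun s => (f s).trace.re := fun f hf =>
    Complex.continuous_re.comp hf.matrix_trace
  have csg : ∀ e, Continuous fun s : Sym2 (Fin d → ℤ) → Bool => sg (s e) := fun e =>
    (continuous_of_discreteTopology (f := sg)).comp (continuous_apply e)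
  have cfl : ∀ e, Continuous (flipS ({e} : Set (Sym2 (Fin d → ℤ)))) := by
    intro e
    refine continuous_pi fun e' => ?_
    unfold flipS
    by_cases h : e' ∈ ({e} : Set (Sym2 (Fin d → ℤ)))
    · simp only [h, if_true]
      exact (continuous_of_discreteTopology (f := Bool.not)).comp (continuous_apply e')
    · simp only [h, if_false]
      exact continuous_apply e'
  -- step 1: expansion
  have h1 : ∀ s, (XX J A s ^ (2 * p + 2)).trace.re =
      ∑ e ∈ J, sg (s e) * (A e * XX J A s ^ (2 * p + 1)).trace.re := by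
    intro s
    rw [pow_succ' _ (2 * p + 1)]
    nth_rw 1 [XX]
    rw [Finset.sum_mul, Matrix.trace_sum, Complex.re_sum]
    refine Finset.sum_congr rfl fun e _ => ?_
    rw [Matrix.smul_mul, Matrix.trace_smul, smul_eq_mul, Complex.re_ofReal_mul]
  have h2 : ∫ s, (XX J A s ^ (2 * p + 2)).trace.re ∂(Ps d) =
      ∑ e ∈ J, ∫ s, sg (s e) * (A e * XX J A s ^ (2 * p + 1)).trace.re ∂(Ps d) := by
    rw [← integral_finsetSum]
    · exact integral_congr_ae (Filter.Eventually.of_forall h1)
    · intro e _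
      exact int_cont _ ((csg e).mul (ctr _ (continuous_const.matrix_mul (hXc.pow _))))
  -- step 2: each term
  have h3 : ∀ e ∈ J, ∫ s, sg (s e) * (A e * XX J A s ^ (2 * p + 1)).trace.re ∂(Ps d) ≤
      (2 * p + 1) * ∫ s, (A e * A e * XX J A s ^ (2 * p)).trace.re ∂(Ps d) := by
    intro e he
    have hmp := flip_mp ({e} : Set (Sym2 (Fin d → ℤ)))
    set F : (Sym2 (Fin d → ℤ) → Bool) → ℝ :=
      fun s => sg (s e) * (A e * XX J A s ^ (2 * p + 1)).trace.re with hF
    have hFc : Continuous F :=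
      (csg e).mul (ctr _ (continuous_const.matrix_mul (hXc.pow _)))
    have e1 : ∫ s, F s ∂(Ps d) = ∫ s, F (flipS {e} s) ∂(Ps d) := by
      have := integral_map (μ := Ps d) hmp.measurable.aemeasurable (f := F)
        (by rw [hmp.map_eq]; exact (int_cont F hFc).aestronglyMeasurable)
      rw [hmp.map_eq] at this
      exact this
    set G : (Sym2 (Fin d → ℤ) → Bool) → ℝ :=
      fun s => (A e * A e * XX J A s ^ (2 * p)).trace.re with hG
    have hGc : Continuous G := ctr _ (continuous_const.matrix_mul (hXc.pow _))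
    have e2 : ∫ s, G s ∂(Ps d) = ∫ s, G (flipS {e} s) ∂(Ps d) := by
      have := integral_map (μ := Ps d) hmp.measurable.aemeasurable (f := G)
        (by rw [hmp.map_eq]; exact (int_cont G hGc).aestronglyMeasurable)
      rw [hmp.map_eq] at this
      exact this
    have e3 : ∀ s, F s + F (flipS {e} s) ≤ (2 * p + 1) * (G s + G (flipS {e} s)) := by
      intro s
      set X := XX J A s with hX
      set Y := XX J A (flipS {e} s) with hY
      have hXh : X.IsHermitian := XX_herm J A hA s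
      have hYh : Y.IsHermitian := XX_herm J A hA _
      have g1 : sg (flipS {e} s e) = - sg (s e) := by
        unfold flipS sg
        simp
        cases s e <;> simp
      have g2 : F s + F (flipS {e} s) =
          sg (s e) * (A e * (X ^ (2 * p + 1) - Y ^ (2 * p + 1))).trace.re := by
        simp only [hF, g1]
        rw [Matrix.mul_sub, Matrix.trace_sub, Complex.sub_re]
        ring
      have g3 : (A e * (X ^ (2 * p + 1) - Y ^ (2 * p + 1))).trace.re =
          2 * sg (s e) * ∑ q ∈ range (2 * p + 1), (A e * X ^ q * A e * Y ^ (2 * p - q)).trace.re := by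
        rw [geom_tel, hX, hY, XX_flip J A s e he, ← hX, ← hY, Finset.mul_sum, Matrix.trace_sum,
          Complex.re_sum, Finset.mul_sum]
        refine Finset.sum_congr rfl fun q _ => ?_
        have g4 : 2 * p + 1 - 1 - q = 2 * p - q := by omega
        rw [g4, Matrix.mul_smul, Matrix.smul_mul, Matrix.mul_smul, Matrix.trace_smul, smul_eq_mul,
          Complex.re_ofReal_mul, ← Matrix.mul_assoc, ← Matrix.mul_assoc]
      have g5 := tr_mix (A e) X Y (hA e) hXh hYh p
      have g6 : sg (s e) * (2 * sg (s e) * ∑ q ∈ range (2 * p + 1),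
          (A e * X ^ q * A e * Y ^ (2 * p - q)).trace.re) =
          2 * ∑ q ∈ range (2 * p + 1), (A e * X ^ q * A e * Y ^ (2 * p - q)).trace.re := by
        have := sg_sq (s e)
        calc _ = sg (s e) ^ 2 * (2 * ∑ q ∈ range (2 * p + 1),
          (A e * X ^ q * A e * Y ^ (2 * p - q)).trace.re) := by ring
          _ = _ := by rw [this, one_mul]
      have g7 : (A e * X ^ (2 * p) * A e).trace.re = G s := by
        simp only [hG, ← hX]
        rw [Matrix.mul_assoc (A e) (X ^ (2 * p)) (A e), Matrix.trace_mul_comm,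
          Matrix.mul_assoc (X ^ (2 * p)), Matrix.trace_mul_comm]
      rw [g2, g3, g6]
      rw [g7] at g5
      have g8 : (A e * A e * Y ^ (2 * p)).trace.re = G (flipS {e} s) := rfl
      rw [g8] at g5
      linarith
    have e4 : ∫ s, (F s + F (flipS {e} s)) ∂(Ps d) ≤
        ∫ s, (2 * p + 1) * (G s + G (flipS {e} s)) ∂(Ps d) := by
      refine integral_mono ?_ ?_ e3
      · exact int_cont _ (hFc.add (hFc.comp (cfl e)))
      · exact int_cont _ (continuous_const.mul (hGc.add (hGc.comp (cfl e))))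
    have i1 : Integrable (fun s => F (flipS {e} s)) (Ps d) := int_cont _ (hFc.comp (cfl e))
    have i2 : Integrable (fun s => G (flipS {e} s)) (Ps d) := int_cont _ (hGc.comp (cfl e))
    rw [integral_add (int_cont _ hFc) i1, integral_const_mul,
      integral_add (int_cont _ hGc) i2] at e4
    have e5 : ∫ s, F (flipS {e} s) ∂(Ps d) = ∫ s, F s ∂(Ps d) := e1.symm
    have e6 : ∫ s, G (flipS {e} s) ∂(Ps d) = ∫ s, G s ∂(Ps d) := e2.symm
    have e7 : ∫ s, F s ∂(Ps d) + ∫ s, F s ∂(Ps d) ≤
        (2 * p + 1) * (∫ s, G s ∂(Ps d) + ∫ s, G s ∂(Ps d)) := by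
      calc _ = ∫ s, F s ∂(Ps d) + ∫ s, F (flipS {e} s) ∂(Ps d) := by rw [e5]
        _ ≤ (2 * p + 1) * (∫ s, G s ∂(Ps d) + ∫ s, G (flipS {e} s) ∂(Ps d)) := e4
        _ = _ := by rw [e6]
    linarith
  rw [h2]
  refine (Finset.sum_le_sum h3).trans ?_
  rw [← Finset.mul_sum]
  refine mul_le_mul_of_nonneg_left ?_ (by positivity)
  have i3 : ∀ e ∈ J, Integrable (fun s => (A e * A e * XX J A s ^ (2 * p)).trace.re) (Ps d) :=
    fun e _ => int_cont _ (ctr _ (continuous_const.matrix_mul (hXc.pow _)))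
  rw [← integral_finsetSum _ i3]
  refine le_of_eq (integral_congr_ae (Filter.Eventually.of_forall fun s => ?_))
  dsimp only
  rw [← hD, Finset.sum_mul, Matrix.trace_sum, Complex.re_sum]

theorem tr_diag_le (J : Finset (Sym2 (Fin d → ℤ))) (A : Sym2 (Fin d → ℤ) → Matrix n n ℂ)
    (hA : ∀ e, (A e).IsHermitian) (Dg : n → ℝ) (v : ℝ)
    (hv : ∀ i, Dg i ≤ v) (p : ℕ) (s : Sym2 (Fin d → ℤ) → Bool) :
    (diagonal (fun i => ((Dg i : ℝ) : ℂ)) * XX J A s ^ (2 * p)).trace.re ≤
      v * (XX J A s ^ (2 * p)).trace.re := by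
  simp only [Matrix.trace, Matrix.diag, Complex.re_sum, Finset.mul_sum]
  refine Finset.sum_le_sum fun i _ => ?_
  rw [Matrix.diagonal_mul, Complex.re_ofReal_mul]
  refine mul_le_mul_of_nonneg_right (hv i) ?_
  have hh : XX J A s ^ (2 * p) = (XX J A s ^ p) * (XX J A s ^ p)ᴴ := by
    have : (XX J A s ^ p)ᴴ = XX J A s ^ p := by
      rw [Matrix.conjTranspose_pow, (XX_herm J A hA s).eq]
    rw [this, ← pow_add]
    congr 1
    omega
  rw [hh, Matrix.mul_apply, Complex.re_sum]
  refine Finset.sum_nonneg fun k _ => ?_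
  rw [Matrix.conjTranspose_apply]
  simp only [RCLike.star_def]
  rw [Complex.mul_conj, Complex.ofReal_re]
  exact Complex.normSq_nonneg _

/-- the recursion for the moments -/
theorem khin_step (J : Finset (Sym2 (Fin d → ℤ))) (A : Sym2 (Fin d → ℤ) → Matrix n n ℂ)
    (hA : ∀ e, (A e).IsHermitian) (Dg : n → ℝ)
    (hD : ∑ e ∈ J, A e * A e = diagonal (fun i => ((Dg i : ℝ) : ℂ))) (v : ℝ)
    (hv : ∀ i, Dg i ≤ v) (p : ℕ) :
    ∫ s, (XX J A s ^ (2 * p + 2)).trace.re ∂(Ps d) ≤
      (2 * p + 1) * (v * ∫ s, (XX J A s ^ (2 * p)).trace.re ∂(Ps d)) := by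
  have hXc := XX_cont J A
  have ctr : ∀ f : (Sym2 (Fin d → ℤ) → Bool) → Matrix n n ℂ, Continuous f →
      Continuous fun s => (f s).trace.re := fun f hf =>
    Complex.continuous_re.comp hf.matrix_trace
  refine (khin_step0 J A hA Dg hD p).trans ?_
  refine mul_le_mul_of_nonneg_left ?_ (by positivity)
  rw [← integral_const_mul]
  refine integral_mono (int_cont _ ?_) (int_cont _ ?_) fun s => ?_
  · exact ctr _ (continuous_const.matrix_mul (hXc.pow _))
  · exact continuous_const.mul (ctr _ (hXc.pow _))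
  · exact tr_diag_le J A hA Dg v hv p s

/-- **Matrix Khintchine inequality** for even moments. -/
theorem khin (J : Finset (Sym2 (Fin d → ℤ))) (A : Sym2 (Fin d → ℤ) → Matrix n n ℂ)
    (hA : ∀ e, (A e).IsHermitian) (Dg : n → ℝ)
    (hD : ∑ e ∈ J, A e * A e = diagonal (fun i => ((Dg i : ℝ) : ℂ))) (v : ℝ) (hv0 : 0 ≤ v)
    (hv : ∀ i, Dg i ≤ v) (p : ℕ) :
    ∫ s, (XX J A s ^ (2 * p + 2)).trace.re ∂(Ps d) ≤
      (∏ j ∈ range (p + 1), (2 * (j : ℝ) + 1)) * v ^ p * ∑ i, Dg i := by
  induction p with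
  | zero =>
    have h1 := khin_step0 J A hA Dg hD 0
    simp only [Nat.cast_zero, mul_zero, zero_add, one_mul, pow_zero, Matrix.mul_one,
      Matrix.trace_diagonal, Complex.re_sum, Complex.ofReal_re, integral_const,
      probReal_univ, smul_eq_mul] at h1
    simpa using h1
  | succ p ih =>
    have h1 := khin_step J A hA Dg hD v hv (p + 1)
    have e : 2 * (p + 1) = 2 * p + 2 := by ring
    rw [e] at h1 ⊢
    refine h1.trans ?_
    rw [Finset.prod_range_succ]
    have h2 := mul_le_mul_of_nonneg_left ih hv0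
    have h3 : (0 : ℝ) ≤ 2 * ((p + 1 : ℕ) : ℝ) + 1 := by positivity
    have h4 := mul_le_mul_of_nonneg_left h2 h3
    refine h4.trans (le_of_eq ?_)
    push_cast
    ring

end Pool.Agent.TH980.PL
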