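import Pool.Agent.TH980.PL.InfAE
import Pool.Agent.TH980.PL.Closed

/-!
Almost surely there is no eigenvalue.
-/

set_option autoImplicit false

namespace Pool.Agent.TH980.PL

open MeasureTheory ProbabilityTheory Matrix Set Filter H10PL Topology

variable {d : ℕ} {T0 : (Fin d → ℤ) → (Fin d → ℤ) → ℝ} {κ : (Fin d → ℤ) → ℝ} {ρ0 b : ℝ}

/-- resampling the potential at one site -/
def upd (x : Fin d → ℤ) (p : (((Fin d → ℤ) → ℝ) × (Sym2 (Fin d → ℤ) → Bool)) × ℝ) :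
    ((Fin d → ℤ) → ℝ) × (Sym2 (Fin d → ℤ) → Bool) :=
  (Function.update p.1.1 x p.2, p.1.2)

theorem upd_mp (v : NNReal) (x : Fin d → ℤ) :
    MeasurePreserving (upd x) (((PV d v).prod (Ps d)).prod (gaussianReal 0 v))
      ((PV d v).prod (Ps d)) := by
  have h1 := measurePreserving_prodAssoc (PV d v) (Ps d) (gaussianReal 0 v)
  have h2 : MeasurePreserving (Prod.map id Prod.swap)
      ((PV d v).prod ((Ps d).prod (gaussianReal 0 v)))
      ((PV d v).prod ((gaussianReal 0 v).prod (Ps d))) :=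
    (MeasurePreserving.id (PV d v)).prod Measure.measurePreserving_swap
  have h3 := (measurePreserving_prodAssoc (PV d v) (gaussianReal 0 v) (Ps d)).symm
  have h4 := (update_mp v x).prod (MeasurePreserving.id (Ps d))
  exact h4.comp (h3.comp (h2.comp h1))

theorem bad_null (h : Adm T0 κ ρ0 b) (v : NNReal) (hv : v ≠ 0) (hS : Shells κ)
    (hc : ∀ᵐ s ∂(Ps d), CutOK T0 κ s) (x : Fin d → ℤ) :
    ((PV d v).prod (Ps d)) {q | ∃ E ψ, IsEig T0 κ q.2 q.1 E ψ ∧ ψ x ≠ 0} = 0 := by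
  set μ := (PV d v).prod (Ps d) with hμ
  set γ := gaussianReal 0 v with hγ
  have : NullSingletonClass γ := nullSingletonClass_gaussianReal hv
  set Bd : Set (((Fin d → ℤ) → ℝ) × (Sym2 (Fin d → ℤ) → Bool)) :=
    {q | ∃ E ψ, IsEig T0 κ q.2 q.1 E ψ ∧ ψ x ≠ 0} with hBd
  have hBd' : Bd = ⋃ n, Bad T0 κ x n := by
    ext q
    rw [mem_iUnion]
    exact bad_iff h x q
  have hm : MeasurableSet Bd := by
    rw [hBd']
    exact MeasurableSet.iUnion fun n => (bad_closed h x n).measurableSet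
  -- good configurations
  have a1 := inf_ae h v hv hS x
  have a2 : ∀ᵐ p ∂(μ.prod (volume : Measure ℝ)), ∀ M : ℕ, InfN T0 κ p.1.2 p.1.1 p.2 x M := by
    have := (Measure.measurePreserving_swap (μ := μ) (ν := (volume : Measure ℝ))).quasiMeasurePreserving.ae a1
    exact this
  have a3 : ∀ᵐ q ∂μ, ∀ᵐ E : ℝ, ∀ M : ℕ, InfN T0 κ q.2 q.1 E x M := Measure.ae_ae_of_ae_prod a2
  have a4 := (upd_mp v x).quasiMeasurePreserving.ae a3
  have a5 : ∀ᵐ q ∂μ, ∀ᵐ t ∂γ, ∀ᵐ E : ℝ, ∀ M : ℕ,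
      InfN T0 κ q.2 (Function.update q.1 x t) E x M := Measure.ae_ae_of_ae_prod a4
  have hc' : ∀ᵐ q ∂μ, CutOK T0 κ q.2 :=
    (measurePreserving_snd (μ := PV d v) (ν := Ps d)).quasiMeasurePreserving.ae hc
  have a6 : ∀ᵐ q ∂μ, ∀ᵐ t ∂γ, upd x (q, t) ∉ Bd := by
    filter_upwards [a5, hc'] with q hq hcq
    obtain ⟨t1, h1⟩ := hq.exists
    have hne : ∀ᵐ t ∂γ, t ≠ t1 := by
      rw [ae_iff]
      have : {a : ℝ | ¬ a ≠ t1} = {t1} := by ext; simp
      rw [this]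
      exact measure_singleton t1
    obtain ⟨t2, h2, h21⟩ := (hq.and hne).exists
    have hE : ∀ᵐ E : ℝ, ¬ ∃ t ψ, IsEig T0 κ q.2 (Function.update q.1 x t) E ψ ∧ ψ x ≠ 0 := by
      filter_upwards [h1, h2] with E g1 g2
      rintro ⟨t, ψ, hψ, hx⟩
      have e1 := kill h q.2 (Function.update q.1 x t1) E x g1 t ψ
        (by rw [Function.update_idem]; exact hψ) hx
      have e2 := kill h q.2 (Function.update q.1 x t2) E x g2 t ψ
        (by rw [Function.update_idem]; exact hψ) hx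
      rw [Function.update_self] at e1 e2
      exact h21 (e2.symm.trans e1)
    have h3 := null_slice h q.2 hcq q.1 x hE
    have h4 : ∀ᵐ t ∂γ, ¬ ∃ E ψ, IsEig T0 κ q.2 (Function.update q.1 x t) E ψ ∧ ψ x ≠ 0 :=
      (gaussianReal_absolutelyContinuous 0 hv).ae_le h3
    exact h4
  have a7 : (μ.prod γ) (upd x ⁻¹' Bd) = 0 := by
    rw [Measure.measure_prod_null ((upd_mp v x).measurable hm)]
    filter_upwards [a6] with q hq
    rw [ae_iff] at hq
    simp only [not_not] at hq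
    exact hq
  rw [(upd_mp v x).measure_preimage hm.nullMeasurableSet] at a7
  exact a7

/-- **No eigenvalues.**  Finite range hopping plus independent random signs times `κ(y-w)` plus a
Gaussian potential has almost surely no eigenvalue. -/
theorem no_eig (h : Adm T0 κ ρ0 b) (v : NNReal) (hv : v ≠ 0) (hS : Shells κ)
    (hc : ∀ᵐ s ∂(Ps d), CutOK T0 κ s) :
    ∀ᵐ q ∂((PV d v).prod (Ps d)), ∀ (E : ℝ) (ψ : (Fin d → ℤ) → ℝ),
      IsEig T0 κ q.2 q.1 E ψ → ψ = 0 := by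
  have h1 : ∀ᵐ q ∂((PV d v).prod (Ps d)), ∀ x, ¬ ∃ E ψ, IsEig T0 κ q.2 q.1 E ψ ∧ ψ x ≠ 0 := by
    rw [ae_all_iff]
    intro x
    rw [ae_iff]
    simpa using bad_null h v hv hS hc x
  filter_upwards [h1] with q hq E ψ hψ
  funext x
  by_contra hx
  exact hq x ⟨E, ψ, hψ, hx⟩

end Pool.Agent.TH980.PL
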