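import Pool.Agent.TH980.PL.Cplx

/-!
Power laws and regularly varying profiles.
-/

set_option autoImplicit false

namespace Pool.Agent.TH980.PL

open Finset MeasureTheory H10PL Filter Topology

variable {d : ℕ} {T0 : (Fin d → ℤ) → (Fin d → ℤ) → ℝ} {κ : (Fin d → ℤ) → ℝ} {ρ0 b : ℝ}

theorem one_le_norm {z : Fin d → ℤ} (hz : z ≠ 0) : 1 ≤ ‖z‖ := by
  obtain ⟨i, hi⟩ := Function.ne_iff.1 hz
  have h1 : (1 : ℝ) ≤ ‖z i‖ := by
    rw [Int.norm_eq_abs]
    exact_mod_cast Int.one_le_abs hi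
  exact h1.trans (norm_le_pi_norm z i)

/-- `Σ |z|^{-r}` converges for `r > d`. -/
theorem summable_pow (hd : 0 < d) {r : ℝ} (hr : (d : ℝ) < r) :
    Summable fun z : Fin d → ℤ => ‖z‖ ^ (-r) := by
  classical
  have hd' : (0 : ℝ) < d := by exact_mod_cast hd
  have hr0 : 0 < r := hd'.trans hr
  set η : ℝ := r / d with hη
  have hη1 : 1 < η := by
    rw [hη, one_lt_div hd']
    exact hr
  set g : ℤ → ℝ := fun n => |(n : ℝ)| ^ (-η) + (if n = 0 then 1 else 0) with hg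
  have hgs : Summable g := by
    refine (Real.summable_abs_int_rpow hη1).add ?_
    exact summable_of_ne_finset_zero (s := {0}) (fun n hn => by
      rw [if_neg]
      simpa using hn)
  have hg0 : ∀ n, 0 ≤ g n := by
    intro n
    simp only [hg]
    split_ifs <;> positivity
  have hpt : ∀ z : Fin d → ℤ, ‖z‖ ^ (-r) ≤ ∏ i, g (z i) := by
    intro z
    by_cases hz : z = 0
    · subst hz
      rw [norm_zero, Real.zero_rpow (by linarith : -r ≠ 0)]
      exact Finset.prod_nonneg fun i _ => hg0 _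
    · have h1 := one_le_norm hz
      have h0 : 0 < ‖z‖ := by linarith
      have h2 : ‖z‖ ^ (-r) = ∏ _i : Fin d, ‖z‖ ^ (-η) := by
        rw [Finset.prod_const, Finset.card_univ, Fintype.card_fin, ← Real.rpow_natCast,
          ← Real.rpow_mul h0.le]
        congr 1
        rw [hη]
        field_simp
      rw [h2]
      refine Finset.prod_le_prod (fun i _ => by positivity) fun i _ => ?_
      simp only [hg]
      by_cases hi : z i = 0
      · rw [if_pos hi]
        have h3 : ‖z‖ ^ (-η) ≤ 1 := Real.rpow_le_one_of_one_le_of_nonpos h1 (by linarith)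
        have h4 : 0 ≤ |((z i : ℤ) : ℝ)| ^ (-η) := by positivity
        linarith
      · rw [if_neg hi, add_zero]
        have h3 : |((z i : ℤ) : ℝ)| ≤ ‖z‖ := by
          have := norm_le_pi_norm z i
          rwa [Int.norm_eq_abs] at this
        have h4 : 0 < |((z i : ℤ) : ℝ)| := by
          rw [abs_pos]
          exact_mod_cast hi
        exact Real.rpow_le_rpow_of_nonpos h4 h3 (by linarith)
  refine summable_of_sum_le (c := (∑' n, g n) ^ d) (fun z => by positivity) fun F => ?_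
  set t : Finset ℤ := F.biUnion fun z => Finset.univ.image z with ht
  have hF : F ⊆ Fintype.piFinset fun _ : Fin d => t := by
    intro z hz
    rw [Fintype.mem_piFinset]
    intro i
    rw [ht, Finset.mem_biUnion]
    exact ⟨z, hz, Finset.mem_image_of_mem _ (Finset.mem_univ i)⟩
  calc ∑ z ∈ F, ‖z‖ ^ (-r) ≤ ∑ z ∈ F, ∏ i, g (z i) := Finset.sum_le_sum fun z _ => hpt z
    _ ≤ ∑ z ∈ Fintype.piFinset fun _ : Fin d => t, ∏ i, g (z i) :=
        Finset.sum_le_sum_of_subset_of_nonneg hF fun z _ _ => Finset.prod_nonneg fun i _ => hg0 _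
    _ = ∏ _i : Fin d, ∑ n ∈ t, g n := (Finset.prod_univ_sum (fun _ => t) (fun _ n => g n)).symm
    _ = (∑ n ∈ t, g n) ^ d := by rw [Finset.prod_const, Finset.card_univ, Fintype.card_fin]
    _ ≤ (∑' n, g n) ^ d := by
        refine pow_le_pow_left₀ (Finset.sum_nonneg fun n _ => hg0 n) ?_ d
        exact hgs.sum_le_tsum t (fun n _ => hg0 n)

/-- the sup norm is attained -/
theorem norm_nat (hd : 0 < d) (z : Fin d → ℤ) : ∃ N : ℕ, ‖z‖ = N := by
  haveI : Nonempty (Fin d) := ⟨⟨0, hd⟩⟩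
  obtain ⟨i, hi⟩ := Finite.exists_max fun i => ‖z i‖
  refine ⟨(z i).natAbs, ?_⟩
  have h1 : ‖z‖ = ‖z i‖ :=
    le_antisymm ((pi_norm_le_iff_of_nonneg (norm_nonneg _)).2 hi) (norm_le_pi_norm z i)
  rw [h1, Int.norm_eq_abs, ← Int.cast_abs, Int.abs_eq_natAbs]
  simp

/-- regularly varying profiles with `|z|^d |κ z|` unbounded have large shells -/
theorem shells_of (hd : 0 < d) (B : ℝ)
    (hB : ∀ z w : Fin d → ℤ, z ≠ 0 → w ≠ 0 → ‖z‖ ≤ 2 * ‖w‖ → ‖w‖ ≤ 2 * ‖z‖ →
      |κ z| ≤ B * |κ w|)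
    (hsup : ∀ A : ℝ, ∃ z : Fin d → ℤ, z ≠ 0 ∧ A ≤ ‖z‖ ^ d * |κ z|) : Shells κ := by
  classical
  refine ⟨B ^ 2, fun A => ?_⟩
  obtain ⟨z0, hz0, hA⟩ := hsup (|B| * |A| + 1)
  obtain ⟨N, hN⟩ := norm_nat hd z0
  have hN1 : 1 ≤ N := by
    have := one_le_norm hz0
    rw [hN] at this
    exact_mod_cast this
  have hpos : 0 < ‖z0‖ ^ d * |κ z0| := by
    have : 0 ≤ |B| * |A| := by positivity
    linarith
  have hk : 0 < |κ z0| := by
    by_contra hcon
    have h1 : |κ z0| = 0 := le_antisymm (not_lt.1 hcon) (abs_nonneg _)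
    rw [h1, mul_zero] at hpos
    exact lt_irrefl _ hpos
  have hBpos : 0 < B := by
    have h1 := hB z0 z0 hz0 hz0 (by linarith [norm_nonneg z0]) (by linarith [norm_nonneg z0])
    by_contra hcon
    push Not at hcon
    nlinarith
  set S : Finset (Fin d → ℤ) := Fintype.piFinset fun _ : Fin d => Finset.Ico (N : ℤ) (2 * N) with hS
  have hcard : S.card = N ^ d := by
    rw [hS, Fintype.card_piFinset_const, Int.card_Ico]
    congr 1
    omega
  have hmem : ∀ z ∈ S, z ≠ 0 ∧ ‖z‖ ≤ 2 * ‖z0‖ ∧ ‖z0‖ ≤ ‖z‖ := by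
    intro z hz
    rw [hS, Fintype.mem_piFinset] at hz
    have h1 : ‖z0‖ ≤ ‖z‖ := by
      rw [hN]
      refine le_trans ?_ (norm_le_pi_norm z ⟨0, hd⟩)
      rw [Int.norm_eq_abs]
      have := (Finset.mem_Ico.1 (hz ⟨0, hd⟩)).1
      have h2 : ((N : ℤ) : ℝ) ≤ ((z ⟨0, hd⟩ : ℤ) : ℝ) := by exact_mod_cast this
      push_cast at h2
      exact h2.trans (le_abs_self _)
    refine ⟨?_, ?_, h1⟩
    · intro h2
      rw [h2, norm_zero] at h1
      have := one_le_norm hz0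
      linarith
    · rw [pi_norm_le_iff_of_nonneg (by positivity)]
      intro i
      rw [Int.norm_eq_abs, hN, abs_le]
      obtain ⟨h3, h4⟩ := Finset.mem_Ico.1 (hz i)
      have h5 : ((N : ℤ) : ℝ) ≤ ((z i : ℤ) : ℝ) := by exact_mod_cast h3
      have h6 : ((z i : ℤ) : ℝ) ≤ ((2 * N : ℤ) : ℝ) := by exact_mod_cast h4.le
      push_cast at h5 h6
      have h7 : (0 : ℝ) ≤ N := Nat.cast_nonneg N
      constructor <;> linarith
  refine ⟨S, |κ z0| / B, ?_, ?_, by positivity, ?_, ?_⟩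
  · intro h0
    exact (hmem 0 h0).1 rfl
  · rw [← Finset.card_pos, hcard]
    positivity
  · intro z hz
    obtain ⟨h1, h2, h3⟩ := hmem z hz
    have h4 := norm_nonneg z
    have h5 := norm_nonneg z0
    constructor
    · rw [div_le_iff₀ hBpos, mul_comm]
      exact hB z0 z hz0 h1 (by linarith) h2
    · refine (hB z z0 h1 hz0 h2 (by linarith)).trans (le_of_eq ?_)
      field_simp
  · rw [hcard]
    push_cast
    rw [← hN]
    have h1 : |B| = B := abs_of_pos hBpos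
    rw [h1] at hA
    have h2 : A ≤ |A| := le_abs_self A
    have h3 : |κ z0| / B * ‖z0‖ ^ d = (‖z0‖ ^ d * |κ z0|) / B := by ring
    rw [h3, le_div_iff₀ hBpos]
    nlinarith

/-- reduction to `δ ≤ 2` -/
theorem summable_min (hκ0 : κ 0 = 0) {δ : ℝ}
    (hs : Summable fun z : Fin d → ℤ => ‖z‖ ^ δ * κ z ^ 2) :
    Summable fun z : Fin d → ℤ => ‖z‖ ^ (min δ 2) * κ z ^ 2 := by
  refine Summable.of_nonneg_of_le (fun z => by positivity) (fun z => ?_) hs
  by_cases hz : z = 0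
  · subst hz
    rw [hκ0]
    simp
  · refine mul_le_mul_of_nonneg_right ?_ (sq_nonneg _)
    exact Real.rpow_le_rpow_of_exponent_le (one_le_norm hz) (min_le_left _ _)

/-- **Main theorem** for regularly varying profiles. -/
theorem main_reg (hd : 0 < d) (h : Adm T0 κ ρ0 b) (v : NNReal) (hv : v ≠ 0) (B : ℝ)
    (hB : ∀ z w : Fin d → ℤ, z ≠ 0 → w ≠ 0 → ‖z‖ ≤ 2 * ‖w‖ → ‖w‖ ≤ 2 * ‖z‖ →
      |κ z| ≤ B * |κ w|)
    (hsup : ∀ A : ℝ, ∃ z : Fin d → ℤ, z ≠ 0 ∧ A ≤ ‖z‖ ^ d * |κ z|) {δ : ℝ}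
    (hδ : 0 < δ) (hs : Summable fun z : Fin d → ℤ => ‖z‖ ^ δ * κ z ^ 2) :
    ∀ᵐ q ∂((PV d v).prod (Ps d)), NoSol T0 κ q.2 q.1 :=
  main_ae h v hv (shells_of hd B hB hsup) (lt_min hδ two_pos) (min_le_right _ _)
    (summable_min h.κ0 hs)

end Pool.Agent.TH980.PL
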